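import Pool.Agent.Helper35_WH.Stmt2

/-!
# INIT: existence of a model

A large ball of the free group is the vertex set.
-/

namespace Pool.Agent.Helper35_WH
open FreeGroup
namespace Init

variable {n : ℕ}

theorem norm_mk_of_isReduced {L : List (Lt n)} (h : IsReduced L) : (mk L : FG n).norm = L.length := by
  rw [FreeGroup.norm, toWord_mk, h.reduce_eq]

theorem mk_cancel (W : List (Lt n)) (j : Fin n) (b : Bool) :
    (mk (W ++ [(j, b), (j, !b)]) : FG n) = mk W := by
  have h4 : Red.Step (W ++ ([(j, b), (j, !b)])) (W ++ []) := @Red.Step.not (Fin n) W [] j b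
  have h5 : (mk (W ++ ([(j, b), (j, !b)])) : FG n) = mk (W ++ []) := Quot.sound h4
  rwa [List.append_nil] at h5

theorem norm_mul_letter (A : FG n) (b : Lt n) :
    ((A * mk [b]).norm + 1 = A.norm) ∨
      ((A * mk [b]).norm = A.norm + 1 ∧ IsReduced (A.toWord ++ [b])) := by
  have hA : A = mk A.toWord := mk_toWord.symm
  have hr : IsReduced A.toWord := isReduced_toWord
  rcases List.eq_nil_or_concat A.toWord with h | ⟨W, a, h⟩
  · right
    have h1 : A = 1 := toWord_eq_nil_iff.1 h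
    subst h1
    refine ⟨?_, by simp⟩
    rw [one_mul, norm_mk_of_isReduced (by simp)]
    simp
  · rw [List.concat_eq_append] at h
    by_cases hab : a.1 = b.1 → a.2 = b.2
    · right
      have h2 : IsReduced (W ++ [a] ++ [b]) := by
        refine IsReduced.append_overlap (by rw [← h]; exact hr) ?_ (by simp)
        simp only [List.singleton_append, isReduced_cons_cons]
        exact ⟨hab, by simp⟩
      refine ⟨?_, by rw [h]; exact h2⟩
      have h3 : A * mk [b] = mk (W ++ [a] ++ [b]) := by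
        rw [hA, h, mul_mk]
      rw [h3, norm_mk_of_isReduced h2, FreeGroup.norm, h]
      simp
    · left
      push Not at hab
      have h3 : A * mk [b] = mk W := by
        rw [hA, h, mul_mk]
        have : a = (b.1, !b.2) := by
          refine Prod.ext hab.1 ?_
          revert hab
          cases a.2 <;> cases b.2 <;> simp
        rw [this, List.append_assoc]
        have h4 := mk_cancel W b.1 (!b.2)
        rw [Bool.not_not] at h4
        exact h4
      have h5 : IsReduced W := (List.isChain_append.1 (h ▸ hr)).1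
      rw [h3, norm_mk_of_isReduced h5, FreeGroup.norm, h]
      simp

theorem convex (L : List (Lt n)) : ∀ (a : Lt n) (A : FG n), IsReduced (L ++ [a]) →
    (A * mk L).norm ≤ max A.norm (A * mk (L ++ [a])).norm := by
  induction L with
  | nil =>
    intro a A _
    rw [← one_eq_mk, mul_one]
    exact le_max_left _ _
  | cons b L ih =>
    intro a A hr
    have e1 : ∀ M : List (Lt n), A * mk (b :: M) = A * mk [b] * mk M := by
      intro M
      rw [mul_assoc, mul_mk]; rfl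
    have hr' : IsReduced (L ++ [a]) := List.IsChain.tail hr
    rcases norm_mul_letter A b with h | ⟨h, hA⟩
    · have := ih a (A * mk [b]) hr'
      have h7 : (A * mk [b]).norm ≤ A.norm := by omega
      rw [e1 L, List.cons_append, e1 (L ++ [a])]
      exact this.trans (max_le_max h7 le_rfl)
    · have h2 : IsReduced (A.toWord ++ [b] ++ (L ++ [a])) :=
        IsReduced.append_overlap hA hr (by simp)
      have h3 : IsReduced (A.toWord ++ [b] ++ L) := by
        rw [← List.append_assoc] at h2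
        exact (List.isChain_append.1 h2).1
      have e2 : A * mk (b :: L) = mk (A.toWord ++ [b] ++ L) := by
        conv_lhs => rw [← mk_toWord (x := A)]
        rw [mul_mk]; simp
      have e3 : A * mk (b :: L ++ [a]) = mk (A.toWord ++ [b] ++ (L ++ [a])) := by
        conv_lhs => rw [← mk_toWord (x := A)]
        rw [mul_mk]; simp
      rw [e2, e3, norm_mk_of_isReduced h3, norm_mk_of_isReduced h2]
      refine le_trans ?_ (le_max_right _ _)
      simp

/-- every element `≠ 1` has a neighbour closer to `1` -/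
theorem exists_parent (w : FG n) (hw : w ≠ 1) : ∃ w' : FG n, w'.norm < w.norm ∧
    (∀ A : FG n, (A * w').norm ≤ max A.norm (A * w).norm) ∧
    ∃ j, w = w' * of j ∨ w' = w * of j := by
  rcases List.eq_nil_or_concat w.toWord with h | ⟨W, a, h⟩
  · exact absurd (toWord_eq_nil_iff.1 h) hw
  · rw [List.concat_eq_append] at h
    have hr : IsReduced (W ++ [a]) := by rw [← h]; exact isReduced_toWord
    have hw' : w = mk (W ++ [a]) := by rw [← h]; exact mk_toWord.symm
    have h5 : IsReduced W := (List.isChain_append.1 hr).1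
    refine ⟨mk W, ?_, fun A => ?_, a.1, ?_⟩
    · rw [hw', norm_mk_of_isReduced h5, norm_mk_of_isReduced hr]; simp
    · rw [hw']; exact convex W a A hr
    · rcases a with ⟨j, b⟩
      cases b
      · right
        rw [hw', of, mul_mk, List.append_assoc]
        exact (mk_cancel W j false).symm
      · left
        rw [hw', of, mul_mk]

theorem finite_ball (N : ℕ) : Finite {w : FG n // w.norm ≤ N} := by
  have h := List.finite_length_le (Lt n) N
  have : Finite {l : List (Lt n) | l.length ≤ N} := h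
  exact Finite.of_injective
    (fun w : {w : FG n // w.norm ≤ N} => (⟨w.1.toWord, w.2⟩ : {l : List (Lt n) | l.length ≤ N}))
    (fun a b h => Subtype.ext (toWord_injective (congrArg Subtype.val h)))

section pot
variable {M : Type} [Group M]

/-- one step -/
def step (m : FG n → Fin n → M) (j : Fin n) : Equiv.Perm (FG n × M) where
  toFun x := (x.1 * of j, x.2 * m x.1 j)
  invFun x := (x.1 * (of j)⁻¹, x.2 * (m (x.1 * (of j)⁻¹) j)⁻¹)
  left_inv x := by simp
  right_inv x := by simp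

/-- the action -/
def act (m : FG n → Fin n → M) : FG n →* Equiv.Perm (FG n × M) :=
  FreeGroup.lift (fun j => (step m j)⁻¹)

theorem act_fst (m : FG n → Fin n → M) (w : FG n) : ∀ x, ((act m w)⁻¹ x).1 = x.1 * w := by
  induction w using FreeGroup.induction_on with
  | C1 => intro x; simp
  | of j =>
    intro x
    show ((act m (of j))⁻¹ x).1 = x.1 * of j
    rw [act, lift_apply_of, _root_.inv_inv]
    rfl
  | inv_of j _ =>
    intro x
    show ((act m (of j)⁻¹)⁻¹ x).1 = x.1 * (of j)⁻¹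
    rw [_root_.map_inv, _root_.inv_inv, act, lift_apply_of]
    rfl
  | mul u v hu hv =>
    intro x
    rw [_root_.map_mul, mul_inv_rev, Equiv.Perm.mul_apply, hv, hu, mul_assoc]

theorem exists_pot (m : FG n → Fin n → M) : ∃ p : FG n → M, p 1 = 1 ∧
    ∀ w j, p (w * of j) = p w * m w j := by
  refine ⟨fun w => ((act m w)⁻¹ (1, 1)).2, by simp, fun w j => ?_⟩
  have h := act_fst m w (1, 1)
  rw [one_mul] at h
  dsimp only
  rw [_root_.map_mul, mul_inv_rev, Equiv.Perm.mul_apply]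
  have h2 : (act m (of j))⁻¹ = step m j := by
    rw [act, lift_apply_of, _root_.inv_inv]
  rw [h2]
  show ((act m w)⁻¹ (1, 1)).2 * m ((act m w)⁻¹ (1, 1)).1 j = _
  rw [h]

end pot

/-! ### The complex -/

section cx
variable (ψ : FG n ≃* FG n) (N : ℕ)

instance : Finite {w : FG n // w.norm ≤ N} := finite_ball N

open Classical in
/-- the complex of a ball -/
noncomputable def cx : Cx (Fin n) (Fin n) where
  V := {w : FG n // w.norm ≤ N}
  A := {x : {w : FG n // w.norm ≤ N} × Fin n // ((ψ (of x.2))⁻¹ * x.1.1).norm ≤ N}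
  B := {x : {w : FG n // w.norm ≤ N} × Fin n // (x.1.1 * of x.2).norm ≤ N}
  S := {x : {w : FG n // w.norm ≤ N} × Fin n × Fin n //
    ((ψ (of x.2.1))⁻¹ * x.1.1).norm ≤ N ∧ (x.1.1 * of x.2.2).norm ≤ N ∧
      ((ψ (of x.2.1))⁻¹ * x.1.1 * of x.2.2).norm ≤ N}
  fV := Fintype.ofFinite _
  fA := Fintype.ofFinite _
  fB := Fintype.ofFinite _
  fS := Fintype.ofFinite _
  s₁ e := e.1.1
  t₁ e := ⟨(ψ (of e.1.2))⁻¹ * e.1.1.1, e.2⟩
  l₁ e := e.1.2
  s₂ e := e.1.1
  t₂ e := ⟨e.1.1.1 * of e.1.2, e.2⟩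
  l₂ e := e.1.2
  bot q := ⟨(q.1.1, q.1.2.1), q.2.1⟩
  top q := ⟨(⟨q.1.1.1 * of q.1.2.2, q.2.2.1⟩, q.1.2.1), by rw [← mul_assoc]; exact q.2.2.2⟩
  lef q := ⟨(q.1.1, q.1.2.2), q.2.2.1⟩
  rig q := ⟨(⟨(ψ (of q.1.2.1))⁻¹ * q.1.1.1, q.2.1⟩, q.1.2.2), q.2.2.2⟩
  h1 q := rfl
  h2 q := rfl
  h3 q := rfl
  h4 q := Subtype.ext (mul_assoc _ _ _).symm
  h5 q := rfl
  h6 q := rfl

theorem exists_hpath (K : ℕ) (hK : ∀ g : Lt n, (ψ (mk [g])).norm ≤ K) (L : List (Lt n)) :
    ∀ u : (cx ψ N).V, u.1.norm + K * L.length ≤ N → ∃ (w : (cx ψ N).V) (hp : List ((cx ψ N).A × Bool)),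
      w.1 = (ψ (mk L))⁻¹ * u.1 ∧ IsPath (cx ψ N).s₁ (cx ψ N).t₁ u hp w ∧
      readW (cx ψ N).l₁ hp = L := by
  induction L with
  | nil =>
    intro u _
    exact ⟨u, [], by rw [← one_eq_mk]; simp, rfl, rfl⟩
  | cons g L ih =>
    intro u hu
    have h1 : ((ψ (mk [g]))⁻¹ * u.1).norm ≤ K + u.1.norm := by
      refine (FreeGroup.norm_mul_le _ _).trans ?_
      rw [norm_inv_eq]
      exact Nat.add_le_add_right (hK g) _
    have h0 : K * (g :: L).length = K * L.length + K := by simp [Nat.mul_add]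
    have h2 : ((ψ (mk [g]))⁻¹ * u.1).norm ≤ N := by omega
    obtain ⟨w, hp, hw, hpath, hread⟩ := ih ⟨(ψ (mk [g]))⁻¹ * u.1, h2⟩ (by
      show ((ψ (mk [g]))⁻¹ * u.1).norm + _ ≤ N
      omega)
    have e1 : (mk (g :: L) : FG n) = mk [g] * mk L := by rw [mul_mk]; rfl
    have hw' : w.1 = (ψ (mk (g :: L)))⁻¹ * u.1 := by
      rw [hw, e1, _root_.map_mul, mul_inv_rev, mul_assoc]
    rcases g with ⟨i, b⟩
    cases b
    · have e2 : (ψ (of i))⁻¹ * ((ψ (mk [(i, false)]))⁻¹ * u.1) = u.1 := by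
        have : (mk [(i, false)] : FG n) = (of i)⁻¹ := by rw [of, inv_mk]; rfl
        rw [this, _root_.map_inv]
        simp
      refine ⟨w, (⟨(⟨(ψ (mk [(i, false)]))⁻¹ * u.1, h2⟩, i), by rw [e2]; exact u.2⟩, false) :: hp,
        hw', ⟨?_, ?_⟩, ?_⟩
      · exact Subtype.ext e2.symm
      · exact hpath
      · show (i, false) :: readW _ hp = _
        rw [hread]
    · refine ⟨w, (⟨(u, i), h2⟩, true) :: hp, hw', ⟨rfl, ?_⟩, ?_⟩
      · exact hpath
      · show (i, true) :: readW _ hp = _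
        rw [hread]

theorem exists_vpath (L : List (Lt n)) :
    ∀ u : (cx ψ N).V, u.1.norm + L.length ≤ N → ∃ (w : (cx ψ N).V) (vp : List ((cx ψ N).B × Bool)),
      w.1 = u.1 * mk L ∧ IsPath (cx ψ N).s₂ (cx ψ N).t₂ u vp w ∧
      readW (cx ψ N).l₂ vp = L := by
  induction L with
  | nil =>
    intro u _
    exact ⟨u, [], by rw [← one_eq_mk]; simp, rfl, rfl⟩
  | cons g L ih =>
    intro u hu
    have h1 : (u.1 * mk [g]).norm ≤ u.1.norm + 1 := by
      refine (FreeGroup.norm_mul_le _ _).trans ?_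
      have : (mk [g] : FG n).norm ≤ 1 := norm_mk_le
      omega
    have h0 : (g :: L).length = L.length + 1 := by simp
    have h2 : (u.1 * mk [g]).norm ≤ N := by omega
    obtain ⟨w, hp, hw, hpath, hread⟩ := ih ⟨u.1 * mk [g], h2⟩ (by
      show (u.1 * mk [g]).norm + _ ≤ N
      omega)
    have e1 : (mk (g :: L) : FG n) = mk [g] * mk L := by rw [mul_mk]; rfl
    have hw' : w.1 = u.1 * mk (g :: L) := by
      rw [hw, e1, mul_assoc]
    rcases g with ⟨i, b⟩
    cases b
    · have e2 : u.1 * mk [(i, false)] * of i = u.1 := by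
        have : (mk [(i, false)] : FG n) = (of i)⁻¹ := by rw [of, inv_mk]; rfl
        rw [this]
        simp
      refine ⟨w, (⟨(⟨u.1 * mk [(i, false)], h2⟩, i), by rw [e2]; exact u.2⟩, false) :: hp,
        hw', ⟨?_, ?_⟩, ?_⟩
      · exact Subtype.ext e2.symm
      · exact hpath
      · show (i, false) :: readW _ hp = _
        rw [hread]
    · refine ⟨w, (⟨(u, i), h2⟩, true) :: hp, hw', ⟨rfl, ?_⟩, ?_⟩
      · exact hpath
      · show (i, true) :: readW _ hp = _
        rw [hread]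

/-- the universal property -/
theorem cx_univ (hN : ∀ i, (ψ (of i)).norm ≤ N) :
    (cx ψ N).Univ (fun e => ψ (of ((cx ψ N).l₁ e))) (fun _ => 1) ⟨1, by simp⟩ := by
  classical
  intro M _ μ₁ μ₂ hflat
  -- the potential
  obtain ⟨p, hp1, hp2⟩ := exists_pot (fun w j =>
    if h : w.norm ≤ N ∧ (w * of j).norm ≤ N then μ₂ ⟨(⟨w, h.1⟩, j), h.2⟩ else 1)
  have hpB : ∀ e : (cx ψ N).B, μ₂ e = (p e.1.1.1)⁻¹ * p (e.1.1.1 * of e.1.2) := by
    intro e
    rw [hp2, dif_pos ⟨e.1.1.2, e.2⟩]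
    simp
  -- the homomorphism
  have hA1 : ∀ i, ((ψ (of i))⁻¹ * (1 : FG n)).norm ≤ N := fun i => by
    rw [mul_one, norm_inv_eq]; exact hN i
  let m : Fin n → M := fun i =>
    p 1 * μ₁ ⟨(⟨1, by simp⟩, i), hA1 i⟩ * (p ((ψ (of i))⁻¹ * 1))⁻¹
  -- all horizontal edges with the same label have the same value
  have hsq : ∀ (w : FG n) (i j : Fin n) (h1 : w.norm ≤ N) (h2 : ((ψ (of i))⁻¹ * w).norm ≤ N)
      (h3 : (w * of j).norm ≤ N) (h4 : ((ψ (of i))⁻¹ * (w * of j)).norm ≤ N),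
      p w * μ₁ ⟨(⟨w, h1⟩, i), h2⟩ * (p ((ψ (of i))⁻¹ * w))⁻¹ =
      p (w * of j) * μ₁ ⟨(⟨w * of j, h3⟩, i), h4⟩ * (p ((ψ (of i))⁻¹ * (w * of j)))⁻¹ := by
    intro w i j h1 h2 h3 h4
    have hf := hflat ⟨(⟨w, h1⟩, i, j), h2, h3, by rw [mul_assoc]; exact h4⟩
    have e1 := hpB ((cx ψ N).rig ⟨(⟨w, h1⟩, i, j), h2, h3, by rw [mul_assoc]; exact h4⟩)
    have e2 := hpB ((cx ψ N).lef ⟨(⟨w, h1⟩, i, j), h2, h3, by rw [mul_assoc]; exact h4⟩)
    rw [e1, e2] at hf
    change μ₁ ⟨(⟨w, h1⟩, i), h2⟩ * ((p ((ψ (of i))⁻¹ * w))⁻¹ * p ((ψ (of i))⁻¹ * w * of j)) =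
      (p w)⁻¹ * p (w * of j) * μ₁ ⟨(⟨w * of j, h3⟩, i), h4⟩ at hf
    rw [← mul_assoc ((ψ (of i))⁻¹) w (of j)]
    have e3 : μ₁ ⟨(⟨w, h1⟩, i), h2⟩ = (p w)⁻¹ * p (w * of j) * μ₁ ⟨(⟨w * of j, h3⟩, i), h4⟩ *
        ((p ((ψ (of i))⁻¹ * w))⁻¹ * p ((ψ (of i))⁻¹ * w * of j))⁻¹ := by
      rw [← hf]; group
    rw [e3]
    group
  have hA : ∀ (k : ℕ) (w : FG n) (i : Fin n) (h1 : w.norm ≤ N)
      (h2 : ((ψ (of i))⁻¹ * w).norm ≤ N), w.norm ≤ k →
      p w * μ₁ ⟨(⟨w, h1⟩, i), h2⟩ * (p ((ψ (of i))⁻¹ * w))⁻¹ = m i := by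
    intro k
    induction k with
    | zero =>
      intro w i h1 h2 hk
      have : w = 1 := norm_eq_zero.1 (Nat.le_zero.1 hk)
      subst this
      rfl
    | succ k ih =>
      intro w i h1 h2 hk
      by_cases hw : w = 1
      · subst hw; rfl
      · obtain ⟨w', hlt, hconv, j, hj⟩ := exists_parent w hw
        have h1' : w'.norm ≤ N := by omega
        have h2' : ((ψ (of i))⁻¹ * w').norm ≤ N := by
          refine (hconv (ψ (of i))⁻¹).trans (max_le ?_ h2)
          rw [norm_inv_eq]; exact hN i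
        rw [← ih w' i h1' h2' (by omega)]
        rcases hj with hj | hj
        · subst hj
          exact (hsq w' i j h1' h2' h1 h2).symm
        · subst hj
          exact hsq w i j h1 h2 h1' h2'
  let h : FG n →* M := (FreeGroup.lift m).comp ψ.symm.toMonoidHom
  have hh : ∀ i, h (ψ (of i)) = m i := fun i => by simp [h]
  refine ⟨(h, fun v => p v.1), ⟨hp1, ?_, ?_⟩, ?_⟩
  · rintro ⟨⟨⟨w, h1⟩, i⟩, h2⟩
    show μ₁ _ = (p w)⁻¹ * h (ψ (of i)) * p ((ψ (of i))⁻¹ * w)
    rw [hh, ← hA _ w i h1 h2 le_rfl]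
    group
  · intro e
    show μ₂ e = (p e.1.1.1)⁻¹ * h 1 * p (e.1.1.1 * of e.1.2)
    rw [_root_.map_one, mul_one]
    exact hpB e
  · rintro ⟨g, r⟩ ⟨hr1, hr2, hr3⟩
    dsimp only at hr1 hr2 hr3
    have hrp : ∀ (k : ℕ) (w : FG n) (h1 : w.norm ≤ N), w.norm ≤ k → r ⟨w, h1⟩ = p w := by
      intro k
      induction k with
      | zero =>
        intro w h1 hk
        have : w = 1 := norm_eq_zero.1 (Nat.le_zero.1 hk)
        subst this
        rw [hp1]; exact hr1
      | succ k ih =>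
        intro w h1 hk
        by_cases hw : w = 1
        · subst hw; rw [hp1]; exact hr1
        · obtain ⟨w', hlt, hconv, j, hj⟩ := exists_parent w hw
          have h1' : w'.norm ≤ N := by omega
          have h3 := ih w' h1' (by omega)
          rcases hj with hj | hj
          · subst hj
            have e1 := hr3 ⟨(⟨w', h1'⟩, j), h1⟩
            have e2 := hpB ⟨(⟨w', h1'⟩, j), h1⟩
            change μ₂ ⟨(⟨w', h1'⟩, j), h1⟩ = (r ⟨w', h1'⟩)⁻¹ * g 1 * r ⟨w' * of j, h1⟩ at e1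
            change μ₂ ⟨(⟨w', h1'⟩, j), h1⟩ = (p w')⁻¹ * p (w' * of j) at e2
            rw [e2, h3, _root_.map_one, mul_one] at e1
            exact (mul_left_cancel e1).symm
          · subst hj
            have e1 := hr3 ⟨(⟨w, h1⟩, j), h1'⟩
            have e2 := hpB ⟨(⟨w, h1⟩, j), h1'⟩
            change μ₂ ⟨(⟨w, h1⟩, j), h1'⟩ = (r ⟨w, h1⟩)⁻¹ * g 1 * r ⟨w * of j, h1'⟩ at e1
            change μ₂ ⟨(⟨w, h1⟩, j), h1'⟩ = (p w)⁻¹ * p (w * of j) at e2
            rw [e2, h3, _root_.map_one, mul_one] at e1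
            exact (_root_.inv_injective (mul_right_cancel e1)).symm
    have hgm : ∀ i, g (ψ (of i)) = m i := by
      intro i
      have e1 := hr2 ⟨(⟨1, by simp⟩, i), hA1 i⟩
      change μ₁ ⟨(⟨1, by simp⟩, i), hA1 i⟩ = (r ⟨1, by simp⟩)⁻¹ * g (ψ (of i)) *
        r ⟨(ψ (of i))⁻¹ * 1, hA1 i⟩ at e1
      rw [hrp _ _ _ le_rfl, hrp _ _ _ le_rfl] at e1
      show _ = p 1 * μ₁ _ * (p ((ψ (of i))⁻¹ * 1))⁻¹
      rw [e1]; group
    refine Prod.ext ?_ ?_
    · have : g.comp ψ.toMonoidHom = h.comp ψ.toMonoidHom := by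
        apply FreeGroup.ext_hom
        intro i
        show g (ψ (of i)) = h (ψ (of i))
        rw [hgm, hh]
      refine MonoidHom.ext fun x => ?_
      have h8 := DFunLike.congr_fun this (ψ.symm x)
      simpa using h8
    · funext v
      exact hrp _ v.1 v.2 le_rfl

end cx

end Init

open Init in
theorem init (_ht : TrivStatement) : InitStatement := by
  intro n X Y ψ hψ
  let K : ℕ := ∑ i, (ψ (of i)).norm
  have hK : ∀ i, (ψ (of i)).norm ≤ K := fun i =>
    Finset.single_le_sum (f := fun i => (ψ (of i)).norm) (fun _ _ => Nat.zero_le _)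
      (Finset.mem_univ i)
  have hK' : ∀ g : Lt n, (ψ (mk [g])).norm ≤ K := by
    rintro ⟨i, b⟩
    cases b
    · have : (mk [(i, false)] : FG n) = (of i)⁻¹ := by rw [of, inv_mk]; rfl
      rw [this, _root_.map_inv, norm_inv_eq]; exact hK i
    · exact hK i
  let N : ℕ := K + K * X.length + 2 * Y.length
  have hN : ∀ i, (ψ (of i)).norm ≤ N := fun i => (hK i).trans (by omega)
  let C := cx ψ N
  obtain ⟨w1, hp, hw1, hpath, hread⟩ := exists_hpath ψ N K hK' X ⟨1, by simp⟩ (by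
    show FreeGroup.norm (1 : FG n) + _ ≤ N
    rw [FreeGroup.norm_one]; omega)
  have hw1' : w1.1 = (mk Y)⁻¹ := by rw [hw1, hψ, mul_one]
  have hY : (mk Y : FG n).norm ≤ Y.length := norm_mk_le
  obtain ⟨w2, vp, hw2, vpath, vread⟩ := exists_vpath ψ N Y w1 (by
    rw [hw1', norm_inv_eq]; omega)
  have hw2' : w2 = ⟨1, by simp⟩ := Subtype.ext (by rw [hw2, hw1', inv_mul_cancel])
  subst hw2'
  exact ⟨{
    F := FG n
    eX := ψ
    eY := MulEquiv.refl _
    C := cx ψ N
    pos := fun v => v.1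
    pos_inj := Subtype.val_injective
    pos₁ := fun e => rfl
    pos₂ := fun e => rfl
    inj₁ := fun e e' h h' => Subtype.ext (Prod.ext h' h)
    inj₂ := fun e e' h h' => Subtype.ext (Prod.ext h' h)
    injS := fun q q' h h' => by
      have h1 : (q.1.1, q.1.2.1) = (q'.1.1, q'.1.2.1) := congrArg Subtype.val h
      have h2 : (q.1.1, q.1.2.2) = (q'.1.1, q'.1.2.2) := congrArg Subtype.val h'
      have h3 : q.1.1 = q'.1.1 := (Prod.ext_iff.1 h1).1
      have h4 : q.1.2.1 = q'.1.2.1 := (Prod.ext_iff.1 h1).2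
      have h5 : q.1.2.2 = q'.1.2.2 := (Prod.ext_iff.1 h2).2
      exact Subtype.ext (Prod.ext h3 (Prod.ext h4 h5))
    w0 := ⟨1, by simp⟩
    w1 := w1
    hp := hp
    vp := vp
    hp_path := hpath
    vp_path := vpath
    hp_read := hread
    vp_read := vread
    univ := cx_univ ψ N hN }⟩

end Pool.Agent.Helper35_WH
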