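import Pool.Agent.Helper76_WH.LFGEN
import Pool.Agent.Helper71_WH.FoldPath

/-!
# TFILL: tight words with all letters are filling
-/

namespace Pool.Agent.Helper35_WH
open FreeGroup
namespace TFill

open LF76

/-- transport of paths which use only edges with the property `K` -/
theorem transportK {α : Type} (G G' : LGraph α) (mV : G.V → G'.V) (mE : G.E → Option G'.E)
    (h : G.V → FreeGroup α) (K : G.E → Prop) (K' : G'.E → Prop)
    (hK : ∀ e f, mE e = some f → K e → K' f)
    (h1 : ∀ e f, mE e = some f → mV (G.src e) = G'.src f ∧ mV (G.tgt e) = G'.tgt f ∧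
      FreeGroup.of (G.lab e) = h (G.src e) * FreeGroup.of (G'.lab f) * (h (G.tgt e))⁻¹)
    (h2 : ∀ e, mE e = none → mV (G.src e) = mV (G.tgt e) ∧
      FreeGroup.of (G.lab e) = h (G.src e) * (h (G.tgt e))⁻¹) :
    ∀ (L : List (G.E × Bool)) (x y : G.V), IsPath G.src G.tgt x L y → (∀ d ∈ L, K d.1) →
      ∃ L', IsPath G'.src G'.tgt (mV x) L' (mV y) ∧ (∀ d ∈ L', K' d.1) ∧
        FreeGroup.mk (readW G.lab L) = h x * FreeGroup.mk (readW G'.lab L') * (h y)⁻¹
  | [], x, y, hp, _ => by
      have hp : x = y := hp
      subst hp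
      refine ⟨[], rfl, by simp, ?_⟩
      have : readW G.lab ([] : List (G.E × Bool)) = [] := rfl
      have h' : readW G'.lab ([] : List (G'.E × Bool)) = [] := rfl
      rw [this, h', ← FreeGroup.one_eq_mk]
      simp
  | (e, b) :: L, x, y, hp, hL0 => by
      obtain ⟨L', hL', hK', hr⟩ := transportK G G' mV mE h K K' hK h1 h2 L _ y hp.2
        (fun d hd => hL0 d (List.mem_cons_of_mem _ hd))
      have hKe : K e := hL0 (e, b) List.mem_cons_self
      have e1 : FreeGroup.mk (readW G.lab ((e, b) :: L)) =
          FreeGroup.mk [(G.lab e, b)] * FreeGroup.mk (readW G.lab L) := by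
        rw [FreeGroup.mul_mk]
        rfl
      have e3 : FreeGroup.mk [(G.lab e, false)] = (FreeGroup.of (G.lab e))⁻¹ := by
        rw [FreeGroup.of, FreeGroup.inv_mk]
        rfl
      have e4 : FreeGroup.mk [(G.lab e, true)] = FreeGroup.of (G.lab e) := rfl
      rw [e1, hr]
      cases hm : mE e with
      | some f =>
        obtain ⟨a1, a2, a3⟩ := h1 e f hm
        have e5 : FreeGroup.mk (readW G'.lab ((f, b) :: L')) =
            FreeGroup.mk [(G'.lab f, b)] * FreeGroup.mk (readW G'.lab L') := by
          rw [FreeGroup.mul_mk]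
          rfl
        have e6 : FreeGroup.mk [(G'.lab f, false)] = (FreeGroup.of (G'.lab f))⁻¹ := by
          rw [FreeGroup.of, FreeGroup.inv_mk]
          rfl
        have e7 : FreeGroup.mk [(G'.lab f, true)] = FreeGroup.of (G'.lab f) := rfl
        refine ⟨(f, b) :: L', ⟨?_, ?_⟩, ?_, ?_⟩
        · rw [hp.1]
          cases b
          · exact a2
          · exact a1
        · cases b
          · show IsPath G'.src G'.tgt (G'.src f) L' (mV y)
            rw [← a1]
            exact hL'
          · show IsPath G'.src G'.tgt (G'.tgt f) L' (mV y)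
            rw [← a2]
            exact hL'
        · intro d hd
          rcases List.mem_cons.1 hd with rfl | hd
          · exact hK e f hm hKe
          · exact hK' d hd
        · rw [e5, hp.1]
          cases b with
          | true =>
            rw [e4, e7, a3]
            simp only [if_true]
            group
          | false =>
            rw [e3, e6, a3]
            simp only [Bool.false_eq_true, if_false]
            group
      | none =>
        obtain ⟨a1, a3⟩ := h2 e hm
        refine ⟨L', ?_, hK', ?_⟩
        · rw [hp.1]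
          cases b with
          | true =>
            simp only [if_true] at hL' ⊢
            rw [a1]; exact hL'
          | false =>
            simp only [Bool.false_eq_true, if_false] at hL' ⊢
            rw [← a1]; exact hL'
        · rw [hp.1]
          cases b with
          | true =>
            rw [e4, a3]
            simp only [if_true]
            group
          | false =>
            rw [e3, a3]
            simp only [Bool.false_eq_true, if_false]
            group

/-- graphs with a closed path which does not use the non-separating edge `e1` -/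
structure Good {n : ℕ} (v : FG n) (G : LGraph (Fin n)) (o : G.V) (e1 : G.E) : Prop where
  card : Fintype.card G.E + 1 = Fintype.card G.V + n
  con : ∀ u, ∃ Q, IsPath G.src G.tgt o Q u ∧ ∀ x ∈ Q, x.1 ≠ e1
  surj : G.Surj o
  path : ∃ P, IsPath G.src G.tgt o P o ∧ (∀ x ∈ P, x.1 ≠ e1) ∧ FreeGroup.mk (readW G.lab P) = v

theorem Good.con' {n : ℕ} {v : FG n} {G : LGraph (Fin n)} {o : G.V} {e1 : G.E}
    (h : Good v G o e1) : G.Con o := fun u => by
  obtain ⟨Q, hQ, _⟩ := h.con u
  exact ⟨Q, hQ⟩

/-- the general step -/
theorem Good.step {n : ℕ} {v : FG n} {G : LGraph (Fin n)} {o : G.V} {e1 : G.E}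
    (hG : Good v G o e1) (G' : LGraph (Fin n)) (e1' : G'.E) (mV : G.V → G'.V)
    (mE : G.E → Option G'.E) (h : G.V → FG n) (hcard : Fintype.card G'.E + 1 = Fintype.card G'.V + n)
    (hK : ∀ e f, mE e = some f → e ≠ e1 → f ≠ e1')
    (h1 : ∀ e f, mE e = some f → mV (G.src e) = G'.src f ∧ mV (G.tgt e) = G'.tgt f ∧
      FreeGroup.of (G.lab e) = h (G.src e) * FreeGroup.of (G'.lab f) * (h (G.tgt e))⁻¹)
    (h2 : ∀ e, mE e = none → mV (G.src e) = mV (G.tgt e) ∧
      FreeGroup.of (G.lab e) = h (G.src e) * (h (G.tgt e))⁻¹)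
    (hm : ∀ y, ∃ x, mV x = y) (ho : h o = 1) : Good v G' (mV o) e1' where
  card := hcard
  con := by
    intro y
    obtain ⟨x, rfl⟩ := hm y
    obtain ⟨Q, hQ, hQ1⟩ := hG.con x
    obtain ⟨Q', hQ', hQ1', _⟩ := transportK G G' mV mE h (· ≠ e1) (· ≠ e1') hK h1 h2 Q o x hQ hQ1
    exact ⟨Q', hQ', hQ1'⟩
  surj := by
    intro g
    obtain ⟨Q, hQ, hg⟩ := hG.surj g
    obtain ⟨Q', hQ', _, hr⟩ := transportK G G' mV mE h (fun _ => True) (fun _ => True)
      (fun _ _ _ _ => trivial) h1 h2 Q o o hQ (fun _ _ => trivial)
    refine ⟨Q', hQ', ?_⟩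
    rw [ho] at hr
    rw [← hg, hr]
    simp
  path := by
    obtain ⟨P, hP, hP1, hg⟩ := hG.path
    obtain ⟨Q', hQ', hQ1', hr⟩ := transportK G G' mV mE h (· ≠ e1) (· ≠ e1') hK h1 h2 P o o hP hP1
    refine ⟨Q', hQ', hQ1', ?_⟩
    rw [ho] at hr
    rw [← hg, hr]
    simp

/-! ### Folding -/

theorem Good.fold {n : ℕ} {v : FG n} {G : LGraph (Fin n)} {o : G.V} {e1 : G.E}
    (hG : Good v G o e1) (D : FoldData G) (he : D.e ≠ e1) (he' : D.e' ≠ e1) :
    ∃ (G' : LGraph (Fin n)) (o' : G'.V) (e1' : G'.E), Good v G' o' e1' ∧
      Fintype.card G'.V < Fintype.card G.V := by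
  have cV := D.card_V
  have cE := D.card_E
  have hEpos : 0 < Fintype.card G.E := Fintype.card_pos_iff.2 ⟨D.e⟩
  have hVpos : 0 < Fintype.card G.V := Fintype.card_pos_iff.2 ⟨o⟩
  have hV2 : 2 ≤ Fintype.card G.V := by
    by_contra h
    have : Fintype.card G.V ≤ 1 := by omega
    exact D.hv (Fintype.card_le_one_iff.1 this _ _)
  have hc := hG.card
  refine ⟨D.G', D.mV o, D.mE e1, hG.step D.G' (D.mE e1) D.mV (fun x => some (D.mE x))
    (fun _ => 1) (by omega) ?_ ?_ ?_ D.mV_surj rfl, by omega⟩
  · intro e f hf hne
    have hf : D.mE e = f := Option.some_injective _ hf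
    subst hf
    have h1 : D.mE e1 = ⟨e1, he'.symm⟩ := foldE_of_ne _ _ _ _ _ he'.symm
    rw [h1]
    by_cases h : e = D.e'
    · have h2 : D.mE e = ⟨D.e, D.he⟩ := dif_pos h
      rw [h2]
      intro h3
      exact he (congrArg Subtype.val h3)
    · have h2 : D.mE e = ⟨e, h⟩ := foldE_of_ne _ _ _ _ _ h
      rw [h2]
      intro h3
      exact hne (congrArg Subtype.val h3)
  · intro e f hf
    have hf : D.mE e = f := Option.some_injective _ hf
    subst hf
    obtain ⟨h1, h2, h3⟩ := D.mE_spec e
    exact ⟨h1, h2, by rw [h3]; simp⟩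
  · intro e h
    exact absurd h (by simp)

/-! ### Pruning -/

theorem Good.prune {n : ℕ} {v : FG n} {G : LGraph (Fin n)} {o : G.V} {e1 : G.E}
    (hG : Good v G o e1) (x : G.V) (hx : x ≠ o)
    (hd : ∀ d d' : G.E × Bool, G.org d = x → G.org d' = x → d = d') :
    ∃ (G' : LGraph (Fin n)) (o' : G'.V) (e1' : G'.E), Good v G' o' e1' ∧
      Fintype.card G'.V < Fintype.card G.V := by
  -- the germ at x
  have hf : ∃ f : G.E × Bool, G.org f = x ∧ f.1 ≠ e1 := by
    obtain ⟨Q, hQ, hQ1⟩ := hG.con x
    have hr := isPath_rev hQ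
    have hr1 : ∀ d ∈ invRev Q, d.1 ≠ e1 := by
      intro d hd
      simp only [invRev, List.mem_reverse, List.mem_map] at hd
      obtain ⟨c, hc, rfl⟩ := hd
      exact hQ1 c hc
    rcases hQ' : invRev Q with _ | ⟨f, R⟩
    · rw [hQ'] at hr
      exact absurd hr hx
    · rw [hQ'] at hr hr1
      obtain ⟨e, b⟩ := f
      exact ⟨(e, b), hr.1.symm, hr1 (e, b) List.mem_cons_self⟩
  obtain ⟨⟨f, b⟩, hfx, hf1⟩ := hf
  have hy : G.org (f, !b) ≠ x := by
    intro h
    have := hd (f, b) (f, !b) hfx h
    have h2 := congrArg Prod.snd this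
    simp at h2
  -- the other edges do not meet x
  have hsrc : ∀ e, e ≠ f → G.src e ≠ x := fun e he h => he (congrArg Prod.fst (hd (e, true) (f, b) h hfx))
  have htgt : ∀ e, e ≠ f → G.tgt e ≠ x := fun e he h => he (congrArg Prod.fst (hd (e, false) (f, b) h hfx))
  have hEpos : 0 < Fintype.card G.E := Fintype.card_pos_iff.2 ⟨f⟩
  have hVpos : 0 < Fintype.card G.V := Fintype.card_pos_iff.2 ⟨o⟩
  have hV2 : 2 ≤ Fintype.card G.V := by
    by_contra h
    have : Fintype.card G.V ≤ 1 := by omega
    exact hx (Fintype.card_le_one_iff.1 this _ _)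
  let G' : LGraph (Fin n) := foldG G (G.org (f, !b)) x hy f
  have cV : Fintype.card G'.V = Fintype.card G.V - 1 := by
    show Fintype.card {y : G.V // y ≠ x} = _
    simp
  have cE : Fintype.card G'.E = Fintype.card G.E - 1 := by
    show Fintype.card {y : G.E // y ≠ f} = _
    simp
  have hc := hG.card
  let mV : G.V → G'.V := foldV G (G.org (f, !b)) x hy
  let mE : G.E → Option G'.E := fun e => if h : e = f then none else some ⟨e, h⟩
  let h : G.V → FG n := fun y => if y = x then (if b then of (G.lab f) else (of (G.lab f))⁻¹) else 1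
  refine ⟨G', mV o, ⟨e1, hf1.symm⟩, hG.step G' ⟨e1, hf1.symm⟩ mV mE h (by omega) ?_ ?_ ?_ ?_ ?_,
    by omega⟩
  · intro e e' he hne
    by_cases hef : e = f
    · simp [mE, hef] at he
    · simp only [mE, dif_neg hef, Option.some.injEq] at he
      subst he
      intro h3
      exact hne (congrArg Subtype.val h3)
  · intro e e' he
    by_cases hef : e = f
    · simp [mE, hef] at he
    · simp only [mE, dif_neg hef, Option.some.injEq] at he
      subst he
      refine ⟨rfl, rfl, ?_⟩
      simp only [h, if_neg (hsrc e hef), if_neg (htgt e hef)]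
      simp only [one_mul, inv_one, mul_one]
      rfl
  · intro e he
    have hef : e = f := by
      by_contra hef
      simp [mE, hef] at he
    subst hef
    cases b with
    | true =>
      have h1 : G.src e = x := hfx
      have h2 : G.tgt e ≠ x := hy
      constructor
      · show foldV G (G.org (e, !true)) x hy (G.src e) = foldV G (G.org (e, !true)) x hy (G.tgt e)
        rw [h1, foldV_v', foldV_of_ne _ _ _ _ _ h2]
        rfl
      · simp only [h, if_pos h1, if_neg h2, if_true]
        simp
    | false =>
      have h1 : G.tgt e = x := hfx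
      have h2 : G.src e ≠ x := hy
      constructor
      · show foldV G (G.org (e, !false)) x hy (G.src e) = foldV G (G.org (e, !false)) x hy (G.tgt e)
        rw [h1, foldV_v', foldV_of_ne _ _ _ _ _ h2]
        rfl
      · simp only [h, if_pos h1, if_neg h2, Bool.false_eq_true, if_false]
        simp
  · rintro ⟨y, hy'⟩
    exact ⟨y, foldV_of_ne _ _ _ _ _ hy'⟩
  · simp only [h, if_neg hx.symm]

/-! ### Folded graphs -/

theorem reduce_path {n : ℕ} (G : LGraph (Fin n)) (e1 : G.E)
    (hfold : ∀ (e e' : G.E) (b : Bool), e ≠ e1 → e' ≠ e1 → G.lab e = G.lab e' →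
      G.org (e, b) = G.org (e', b) → e = e') :
    ∀ (Q : List (G.E × Bool)) (u w : G.V), IsPath G.src G.tgt u Q w → (∀ x ∈ Q, x.1 ≠ e1) →
      ∃ Q', IsPath G.src G.tgt u Q' w ∧ (∀ x ∈ Q', x.1 ≠ e1) ∧
        readW G.lab Q' = FreeGroup.reduce (readW G.lab Q)
  | [], u, w, h, _ => ⟨[], h, by simp, rfl⟩
  | (e, b) :: Q, u, w, h, h1 => by
    obtain ⟨Q', hQ', hQ1', hr⟩ := reduce_path G e1 hfold Q _ w h.2
      (fun x hx => h1 x (List.mem_cons_of_mem _ hx))
    have he : e ≠ e1 := h1 (e, b) List.mem_cons_self
    have e2 : FreeGroup.reduce (readW G.lab ((e, b) :: Q)) =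
        List.casesOn (motive := fun _ => List (Fin n × Bool)) (FreeGroup.reduce (readW G.lab Q))
          [(G.lab e, b)] fun hd tl =>
          if G.lab e = hd.1 ∧ b = !hd.2 then tl else (G.lab e, b) :: hd :: tl := by
      show FreeGroup.reduce ((G.lab e, b) :: readW G.lab Q) = _
      rw [FreeGroup.reduce.cons]
    rcases Q' with _ | ⟨⟨f, c⟩, Q''⟩
    · have hr' : FreeGroup.reduce (readW G.lab Q) = [] := hr.symm
      refine ⟨[(e, b)], ⟨h.1, hQ'⟩, ?_, ?_⟩
      · intro x hx
        rw [List.mem_singleton] at hx
        subst hx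
        exact he
      · rw [e2, hr']
        rfl
    · have hr' : FreeGroup.reduce (readW G.lab Q) = (G.lab f, c) :: readW G.lab Q'' := hr.symm
      have hf : f ≠ e1 := hQ1' (f, c) List.mem_cons_self
      by_cases hc : G.lab e = G.lab f ∧ b = !c
      · have hb : b = !c := hc.2
        have hef : e = f := by
          refine hfold e f c he hf hc.1 ?_
          have h3 := hQ'.1
          subst hb
          cases c
          · exact h3
          · exact h3
        subst hef
        refine ⟨Q'', ?_, ?_, ?_⟩
        · have h3 := h.1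
          have h4 := hQ'.2
          subst hb
          rw [h3]
          cases c
          · exact h4
          · exact h4
        · intro x hx
          exact hQ1' x (List.mem_cons_of_mem _ hx)
        · rw [e2, hr']
          simp only [hb, and_self, if_true]
      · refine ⟨(e, b) :: (f, c) :: Q'', ⟨h.1, hQ'⟩, ?_, ?_⟩
        · intro x hx
          rcases List.mem_cons.1 hx with rfl | hx
          · exact he
          · exact hQ1' x hx
        · rw [e2, hr']
          simp only [if_neg hc]
          rfl

/-- a good graph gives a splitting or a contradiction -/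
theorem good_main (h2 : LFCoreStatement) {n : ℕ} (L : List (Lt n)) (hL : IsCyclicallyReduced L)
    (hall : AllLetters L) (ht : Tight L) :
    ∀ (N : ℕ) (G : LGraph (Fin n)) (o : G.V) (e1 : G.E), Good (mk L) G o e1 →
      Fintype.card G.V ≤ N → False := by
  intro N
  induction N with
  | zero =>
    intro G o e1 hG hN
    have hVpos : 0 < Fintype.card G.V := Fintype.card_pos_iff.2 ⟨o⟩
    omega
  | succ N ih =>
    intro G o e1 hG hN
    by_cases hmin : ∃ (G' : LGraph (Fin n)) (o' : G'.V) (e1' : G'.E), Good (mk L) G' o' e1' ∧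
        Fintype.card G'.V < Fintype.card G.V
    · obtain ⟨G', o', e1', hG', hlt⟩ := hmin
      exact ih G' o' e1' hG' (by omega)
    -- folded
    have hfold : ∀ (e e' : G.E) (b : Bool), e ≠ e1 → e' ≠ e1 → G.lab e = G.lab e' →
        G.org (e, b) = G.org (e', b) → e = e' := by
      intro e e' b he he' hl ho
      by_contra hne
      by_cases hv : G.org (e, !b) = G.org (e', !b)
      · have h3 : n + Fintype.card G.V ≤ Fintype.card G.E := by
          refine rank_parallel G o hG.con' hG.surj e e' hne hl ?_ ?_
          · cases b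
            · exact hv
            · exact ho
          · cases b
            · exact ho
            · exact hv
        have := hG.card
        omega
      · exact hmin (hG.fold ⟨e, e', b, hne, hl, ho, hv⟩ he he')
    -- the reduced path
    obtain ⟨P0, hP0, hP01, hP0r⟩ := hG.path
    obtain ⟨P, hP, hP1, hPr⟩ := reduce_path G e1 hfold P0 o o hP0 hP01
    have hPL : readW G.lab P = L := by
      rw [hPr, ← toWord_mk, hP0r, toWord_mk]
      exact hL.isReduced.reduce_eq
    have hLne : L ≠ [] := by
      obtain ⟨b, hb⟩ := hall (G.lab e1)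
      intro h
      rw [h] at hb
      simp at hb
    have hPne : P ≠ [] := by
      intro h
      rw [h] at hPL
      exact hLne hPL.symm
    have hVpos : 0 < Fintype.card G.V := Fintype.card_pos_iff.2 ⟨o⟩
    by_cases hV2 : 2 ≤ Fintype.card G.V
    · -- all vertices have two germs
      have hgerms : ∀ u, ∃ d d' : G.E × Bool, d ≠ d' ∧ G.org d = u ∧ G.org d' = u := by
        intro u
        by_contra hu
        push Not at hu
        have hd : ∀ d d' : G.E × Bool, G.org d = u → G.org d' = u → d = d' := by
          intro d d' h1 h2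
          by_contra hne
          exact hu d d' hne h1 h2
        by_cases huo : u = o
        · subst huo
          rcases hPc : P with _ | ⟨⟨e, b⟩, Q⟩
          · exact hPne hPc
          · rcases List.eq_nil_or_concat P with hPc' | ⟨R, ⟨e', b'⟩, hPc'⟩
            · exact hPne hPc'
            · rw [List.concat_eq_append] at hPc'
              have o1 : G.org (e, b) = u := by
                rw [hPc] at hP
                exact hP.1.symm
              have o2 : G.org (e', !b') = u := by
                rw [hPc', h71_path_append] at hP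
                obtain ⟨m, _, hm⟩ := hP
                have hm2 : (if b' then G.tgt e' else G.src e') = u := hm.2
                rw [← hm2]
                cases b' <;> rfl
              have h3 := hd _ _ o1 o2
              have h4 : e = e' := congrArg Prod.fst h3
              have h5 : b = !b' := congrArg Prod.snd h3
              have h6 := hL.2
              have h7 : (G.lab e', b') ∈ L.getLast? := by
                rw [← hPL, hPc', readW_append]
                simp [readW]
              have h8 : (G.lab e, b) ∈ L.head? := by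
                rw [← hPL, hPc]
                simp [readW]
              have h9 := h6 _ h7 _ h8 (by rw [h4])
              simp only at h9
              rw [h5] at h9
              cases b' <;> simp at h9
        · exact hmin (hG.prune u huo hd)
      obtain ⟨z, s, a, k, hs, hsw⟩ := h2 n G o hG.con' hG.surj hG.card hV2 hgerms o P hP hPne
        (by rw [hPL]; exact hL)
      rw [hPL] at hsw
      exact ht ⟨z, s, a, k, hs, hsw⟩
    · have hE : Fintype.card G.E = n := by
        have := hG.card
        omega
      have hsurj := lab_surjective G o hG.surj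
      have hbij : Function.Bijective G.lab :=
        (Fintype.bijective_iff_surjective_and_card _).2 ⟨hsurj, by rw [hE]; simp⟩
      obtain ⟨b, hb⟩ := hall (G.lab e1)
      rw [← hPL] at hb
      simp only [readW, List.mem_map] at hb
      obtain ⟨x, hx, hxe⟩ := hb
      exact hP1 x hx (hbij.1 (congrArg Prod.fst hxe))

/-! ### The subdivided rose -/

theorem petal {n : ℕ} (w : Fin n → List (Lt n)) (i : Fin n) (k j : ℕ) (hk : k ≤ j)
    (hj : j ≤ (w i).length) :
    ∃ L : List ((h71G w).E × Bool), IsPath (h71G w).src (h71G w).tgt (h71pt w i k) L (h71pt w i j) ∧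
      readW (h71G w).lab L = ((w i).take j).drop k ∧
      ∀ x ∈ L, x.1.1 = i ∧ k ≤ x.1.2.1 := by
  induction j with
  | zero =>
    have hk0 : k = 0 := by omega
    subst hk0
    exact ⟨[], rfl, by simp [readW], by simp⟩
  | succ j ih =>
    rcases Nat.lt_or_ge j k with hjk | hjk
    · have hk0 : k = j + 1 := by omega
      subst hk0
      exact ⟨[], rfl, by simp [readW], by simp⟩
    obtain ⟨L, h1, h2, h3⟩ := ih hjk (by omega)
    have hj' : j < (w i).length := hj
    set e : (h71G w).E := (⟨i, ⟨j, hj'⟩⟩ : Σ i : Fin n, Fin (w i).length) with he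
    have hb1 : (if ((w i).get ⟨j, hj'⟩).2 then (h71G w).src e else (h71G w).tgt e) =
        h71pt w i j := by
      change (if ((w i).get ⟨j, hj'⟩).2 then (if ((w i).get ⟨j, hj'⟩).2 then h71pt w i j else
        h71pt w i (j + 1)) else (if ((w i).get ⟨j, hj'⟩).2 then h71pt w i (j + 1) else
        h71pt w i j)) = _
      by_cases hb : ((w i).get ⟨j, hj'⟩).2 = true
      · rw [if_pos hb, if_pos hb]
      · rw [if_neg hb, if_neg hb]
    have hb2 : (if ((w i).get ⟨j, hj'⟩).2 then (h71G w).tgt e else (h71G w).src e) =
        h71pt w i (j + 1) := by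
      change (if ((w i).get ⟨j, hj'⟩).2 then (if ((w i).get ⟨j, hj'⟩).2 then h71pt w i (j + 1) else
        h71pt w i j) else (if ((w i).get ⟨j, hj'⟩).2 then h71pt w i j else
        h71pt w i (j + 1))) = _
      by_cases hb : ((w i).get ⟨j, hj'⟩).2 = true
      · rw [if_pos hb, if_pos hb]
      · rw [if_neg hb, if_neg hb]
    refine ⟨L ++ [(e, ((w i).get ⟨j, hj'⟩).2)], ?_, ?_, ?_⟩
    · rw [h71_path_append]
      refine ⟨_, h1, ?_⟩
      have := h71_path_single (s := (h71G w).src) (t := (h71G w).tgt) e ((w i).get ⟨j, hj'⟩).2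
      rw [hb1, hb2] at this
      exact this
    · rw [readW_append, h2, List.take_add_one, List.drop_append_of_le_length (by simp; omega)]
      congr 1
      rw [List.getElem?_eq_getElem hj']
      rfl
    · intro x hx
      rcases List.mem_append.1 hx with hx | hx
      · exact h3 x hx
      · rw [List.mem_singleton] at hx
        subst hx
        exact ⟨rfl, hjk⟩

theorem card_of_equiv {n : ℕ} {J : Type} [Fintype J] (e : FG n ≃* FreeGroup J) :
    Fintype.card J = n := by
  classical
  have e1 : (Fin n → Multiplicative (ZMod 2)) ≃ (J → Multiplicative (ZMod 2)) :=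
    (FreeGroup.lift (α := Fin n)).trans
      ((⟨fun f => f.comp e.symm.toMonoidHom, fun f => f.comp e.toMonoidHom,
        fun f => by ext x; simp, fun f => by ext x; simp⟩ :
          (FG n →* Multiplicative (ZMod 2)) ≃ (FreeGroup J →* Multiplicative (ZMod 2))).trans
        (FreeGroup.lift (α := J)).symm)
  have h := Fintype.card_congr e1
  rw [Fintype.card_fun, Fintype.card_fun] at h
  have h2 : Fintype.card (Multiplicative (ZMod 2)) = 2 := by
    rw [Fintype.card_multiplicative, ZMod.card]
  rw [h2, Fintype.card_fin] at h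
  exact (Nat.pow_right_injective le_rfl h).symm

/-- the first good graph -/
theorem exists_good {n : ℕ} (v : FG n) (e : FG n ≃* FG n) (t : Fin n)
    (h : e v ∈ Subgroup.closure (FreeGroup.of '' {t}ᶜ)) :
    ∃ (G : LGraph (Fin n)) (o : G.V) (e1 : G.E), Good v G o e1 := by
  let w : Fin n → List (Lt n) := fun i => (e.symm (of i)).toWord
  have hw : ∀ i, 1 ≤ (w i).length := by
    intro i
    by_contra h0
    have h1 : (w i) = [] := List.length_eq_zero_iff.1 (by omega)
    have h2 : e.symm (of i) = 1 := toWord_eq_nil_iff.1 h1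
    have h3 : (of i : FG n) = 1 := by
      rw [← e.apply_symm_apply (of i), h2, _root_.map_one]
    exact of_ne_one i h3
  have hmw : ∀ i, (mk (w i) : FG n) = e.symm (of i) := fun i => mk_toWord
  have hpt0 : ∀ i, h71pt w i 0 = none := fun i => by simp [h71pt]
  have hptl : ∀ i, h71pt w i (w i).length = none := fun i => by simp [h71pt]
  let e1 : (h71G w).E := (⟨t, ⟨0, hw t⟩⟩ : Σ i : Fin n, Fin (w i).length)
  -- the petals
  have hpet : ∀ i, ∃ L : List ((h71G w).E × Bool), IsPath (h71G w).src (h71G w).tgt none L none ∧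
      mk (readW (h71G w).lab L) = e.symm (of i) ∧ ∀ x ∈ L, x.1.1 = i := by
    intro i
    obtain ⟨L, h1, h2, h3⟩ := petal w i 0 (w i).length (Nat.zero_le _) le_rfl
    rw [hpt0, hptl] at h1
    refine ⟨L, h1, ?_, fun x hx => (h3 x hx).1⟩
    rw [h2, List.take_length, List.drop_zero, hmw]
  refine ⟨h71G w, (none : Option _), e1, ⟨h71_card w hw, ?_, ?_, ?_⟩⟩
  · intro u
    rcases u with _ | ⟨i, j⟩
    · exact ⟨[], rfl, by simp⟩
    · have hj := j.2
      have hpt : h71pt w i (j + 1) = some ⟨i, j⟩ := by
        simp only [h71pt]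
        rw [dif_pos (by omega)]
        rfl
      by_cases hi : i = t
      · obtain ⟨L, h1, _, h3⟩ := petal w i (j + 1) (w i).length (by omega) le_rfl
        rw [hpt, hptl] at h1
        refine ⟨invRev L, isPath_rev h1, ?_⟩
        intro x hx
        simp only [invRev, List.mem_reverse, List.mem_map] at hx
        obtain ⟨y, hy, rfl⟩ := hx
        have h4 := (h3 y hy).2
        intro h5
        change y.1 = e1 at h5
        rw [h5] at h4
        exact absurd h4 (by show ¬ (j.1 + 1 ≤ 0); omega)
      · obtain ⟨L, h1, _, h3⟩ := petal w i 0 (j + 1) (by omega) (by omega)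
        rw [hpt, hpt0] at h1
        refine ⟨L, h1, ?_⟩
        intro x hx h5
        have h4 := (h3 x hx).1
        rw [h5] at h4
        exact hi h4.symm
  · refine h71_surj_of _ e.symm.toMonoidHom e.symm.surjective ?_
    intro i
    obtain ⟨L, h1, h2, _⟩ := hpet i
    exact ⟨L, h1, h2⟩
  · have key : ∀ g ∈ Subgroup.closure (FreeGroup.of '' {t}ᶜ),
        ∃ P, IsPath (h71G w).src (h71G w).tgt none P none ∧ (∀ x ∈ P, x.1 ≠ e1) ∧
          FreeGroup.mk (readW (h71G w).lab P) = e.symm g := by
      intro g hg
      induction hg using Subgroup.closure_induction with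
      | mem x hx =>
        obtain ⟨i, hi, rfl⟩ := hx
        obtain ⟨L, h1, h2, h3⟩ := hpet i
        refine ⟨L, h1, ?_, h2⟩
        intro x hx h5
        have h4 := h3 x hx
        rw [h5] at h4
        exact hi h4.symm
      | one => exact ⟨[], rfl, by simp, by rw [_root_.map_one]; rfl⟩
      | mul x y _ _ hx hy =>
        obtain ⟨P, hP, hP1, hP2⟩ := hx
        obtain ⟨Q, hQ, hQ1, hQ2⟩ := hy
        refine ⟨P ++ Q, isPath_append hP hQ, ?_, ?_⟩
        · intro z hz
          rcases List.mem_append.1 hz with hz | hz
          · exact hP1 z hz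
          · exact hQ1 z hz
        · rw [mk_readW_append, hP2, hQ2, _root_.map_mul]
      | inv x _ hx =>
        obtain ⟨P, hP, hP1, hP2⟩ := hx
        refine ⟨invRev P, isPath_rev hP, ?_, ?_⟩
        · intro z hz
          simp only [invRev, List.mem_reverse, List.mem_map] at hz
          obtain ⟨y, hy, rfl⟩ := hz
          exact hP1 y hy
        · rw [mk_readW_inv, hP2, _root_.map_inv]
    obtain ⟨P, h1, h2, h3⟩ := key _ h
    exact ⟨P, h1, h2, by rw [h3, MulEquiv.symm_apply_apply]⟩

end TFill

open TFill in
theorem tightFilling (h2 : LFCoreStatement) : TightFillingStatement := by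
  intro n L hL hall ht J _ e t hmem
  have hJ := card_of_equiv e
  let j : J ≃ Fin n := Fintype.equivFinOfCardEq hJ
  have h3 : (e.trans (FreeGroup.freeGroupCongr j)) (mk L) ∈
      Subgroup.closure (FreeGroup.of '' {j t}ᶜ) := by
    have h4 := Subgroup.mem_map_of_mem (FreeGroup.freeGroupCongr j).toMonoidHom hmem
    rw [MonoidHom.map_closure] at h4
    refine Subgroup.closure_mono ?_ h4
    rintro _ ⟨_, ⟨x, hx, rfl⟩, rfl⟩
    refine ⟨j x, ?_, ?_⟩
    · intro h5
      exact hx (j.injective h5)
    · simp
  obtain ⟨G, o, e1, hG⟩ := exists_good (mk L) _ (j t) h3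
  exact good_main h2 L hL hall ht _ G o e1 hG le_rfl

end Pool.Agent.Helper35_WH
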