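import Pool.Agent.Helper35_WH.Stmt1
import Pool.Agent.Helper19_WH.TRIV

/-!
# FREEFAC: intersections of free factors

The graph is a finite part of the Schreier graph of the subgroup.
-/

namespace Pool.Agent.Helper35_WH
open FreeGroup
namespace FreeFac

set_option linter.unusedSectionVars false

section pot
variable {ε : Type} {M : Type} [Group M]

/-- one step -/
def step (m : FreeGroup ε → ε → M) (j : ε) : Equiv.Perm (FreeGroup ε × M) where
  toFun x := (x.1 * of j, x.2 * m x.1 j)
  invFun x := (x.1 * (of j)⁻¹, x.2 * (m (x.1 * (of j)⁻¹) j)⁻¹)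
  left_inv x := by simp
  right_inv x := by simp

/-- the action -/
def act (m : FreeGroup ε → ε → M) : FreeGroup ε →* Equiv.Perm (FreeGroup ε × M) :=
  FreeGroup.lift (fun j => (step m j)⁻¹)

theorem act_fst (m : FreeGroup ε → ε → M) (w : FreeGroup ε) : ∀ x, ((act m w)⁻¹ x).1 = x.1 * w := by
  induction w using FreeGroup.induction_on with
  | C1 => intro x; simp
  | of j =>
    intro x
    show ((act m (of j))⁻¹ x).1 = x.1 * of j
    rw [act, lift_apply_of, _root_.inv_inv]
    rfl
  | inv_of j _ =>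
    intro x
    show ((act m (of j)⁻¹)⁻¹ x).1 = x.1 * (of j)⁻¹
    rw [_root_.map_inv, _root_.inv_inv, act, lift_apply_of]
    rfl
  | mul u v hu hv =>
    intro x
    rw [_root_.map_mul, mul_inv_rev, Equiv.Perm.mul_apply, hv, hu, mul_assoc]

theorem exists_pot (m : FreeGroup ε → ε → M) : ∃ p : FreeGroup ε → M, p 1 = 1 ∧
    ∀ w j, p (w * of j) = p w * m w j := by
  refine ⟨fun w => ((act m w)⁻¹ (1, 1)).2, by simp, fun w j => ?_⟩
  have h := act_fst m w (1, 1)
  rw [one_mul] at h
  dsimp only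
  rw [_root_.map_mul, mul_inv_rev, Equiv.Perm.mul_apply]
  have h2 : (act m (of j))⁻¹ = step m j := by
    rw [act, lift_apply_of, _root_.inv_inv]
  rw [h2]
  show ((act m w)⁻¹ (1, 1)).2 * m ((act m w)⁻¹ (1, 1)).1 j = _
  rw [h]

theorem pot_unique (m : FreeGroup ε → ε → M) (p p' : FreeGroup ε → M) (h1 : p 1 = p' 1)
    (h : ∀ w j, p (w * of j) = p w * m w j) (h' : ∀ w j, p' (w * of j) = p' w * m w j) :
    p = p' := by
  have key : ∀ w : FreeGroup ε, ∀ u, p u = p' u → p (u * w) = p' (u * w) := by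
    intro w
    induction w using FreeGroup.induction_on with
    | C1 => intro u hu; simpa using hu
    | of j =>
      intro u hu
      show p (u * of j) = p' (u * of j)
      rw [h, h', hu]
    | inv_of j _ =>
      intro u hu
      show p (u * (of j)⁻¹) = p' (u * (of j)⁻¹)
      have a1 := h (u * (of j)⁻¹) j
      have a2 := h' (u * (of j)⁻¹) j
      rw [inv_mul_cancel_right] at a1 a2
      rw [hu, a2] at a1
      exact (mul_right_cancel a1).symm
    | mul x y hx hy =>
      intro u hu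
      rw [← mul_assoc]
      exact hy _ (hx _ hu)
  funext w
  have := key w 1 h1
  simpa using this

end pot

section parent
variable {ε : Type} [DecidableEq ε]

theorem norm_mk_of_isReduced {L : List (ε × Bool)} (h : IsReduced L) :
    (mk L : FreeGroup ε).norm = L.length := by
  rw [FreeGroup.norm, toWord_mk, h.reduce_eq]

theorem mk_cancel (W : List (ε × Bool)) (j : ε) (b : Bool) :
    (mk (W ++ [(j, b), (j, !b)]) : FreeGroup ε) = mk W := by
  have h4 : Red.Step (W ++ ([(j, b), (j, !b)])) (W ++ []) := @Red.Step.not ε W [] j b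
  have h5 : (mk (W ++ ([(j, b), (j, !b)])) : FreeGroup ε) = mk (W ++ []) := Quot.sound h4
  rwa [List.append_nil] at h5

/-- every element `≠ 1` has a neighbour closer to `1` -/
theorem exists_parent (w : FreeGroup ε) (hw : w ≠ 1) : ∃ w' : FreeGroup ε, w'.norm < w.norm ∧
    ∃ j, w = w' * of j ∨ w' = w * of j := by
  rcases List.eq_nil_or_concat w.toWord with h | ⟨W, a, h⟩
  · exact absurd (toWord_eq_nil_iff.1 h) hw
  · rw [List.concat_eq_append] at h
    have hr : IsReduced (W ++ [a]) := by rw [← h]; exact isReduced_toWord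
    have hw' : w = mk (W ++ [a]) := by rw [← h]; exact mk_toWord.symm
    have h5 : IsReduced W := (List.isChain_append.1 hr).1
    refine ⟨mk W, ?_, a.1, ?_⟩
    · rw [hw', norm_mk_of_isReduced h5, norm_mk_of_isReduced hr]; simp
    · rcases a with ⟨j, b⟩
      cases b
      · right
        rw [hw', of, mul_mk, List.append_assoc]
        exact (mk_cancel W j false).symm
      · left
        rw [hw', of, mul_mk]

theorem finite_ball [Finite ε] (N : ℕ) : Finite {w : FreeGroup ε // w.norm ≤ N} := by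
  have h := List.finite_length_le (ε × Bool) N
  have : Finite {l : List (ε × Bool) | l.length ≤ N} := h
  exact Finite.of_injective
    (fun w : {w : FreeGroup ε // w.norm ≤ N} => (⟨w.1.toWord, w.2⟩ : {l : List (ε × Bool) | l.length ≤ N}))
    (fun a b h => Subtype.ext (toWord_injective (congrArg Subtype.val h)))

end parent

/-- representatives of the cosets -/
structure RepData {α ε : Type} (χ : FreeGroup α →* FreeGroup ε) where
  /-- the representative -/
  rep : FreeGroup ε → FreeGroup ε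
  /-- the element of the subgroup -/
  hh : FreeGroup ε → FreeGroup α
  spec : ∀ w, w = χ (hh w) * rep w
  rep_mul : ∀ h w, rep (χ h * w) = rep w
  rep_one : rep 1 = 1

theorem exists_repData {α ε : Type} (χ : FreeGroup α →* FreeGroup ε) : Nonempty (RepData χ) := by
  classical
  let r : Setoid (FreeGroup ε) := QuotientGroup.rightRel χ.range
  have hr : ∀ x y, r x y ↔ y * x⁻¹ ∈ χ.range := fun x y => QuotientGroup.rightRel_apply
  let cl : FreeGroup ε → Quotient r := Quotient.mk r
  have hcl : ∀ h w, cl (χ h * w) = cl w := by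
    intro h w
    refine Quotient.sound ((hr _ _).2 ?_)
    exact ⟨h⁻¹, by rw [_root_.map_inv]; group⟩
  let rep : FreeGroup ε → FreeGroup ε := fun w => if cl w = cl 1 then 1 else (cl w).out
  have h1 : ∀ w, ∃ h, w = χ h * rep w := by
    intro w
    by_cases hw : cl w = cl 1
    · have h2 : r 1 w := Quotient.exact hw.symm
      obtain ⟨h, hh⟩ := (hr _ _).1 h2
      refine ⟨h, ?_⟩
      simp only [rep, if_pos hw]
      rw [hh]; simp
    · have h2 : r (cl w).out w := Quotient.exact (Quotient.out_eq _)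
      obtain ⟨h, hh⟩ := (hr _ _).1 h2
      refine ⟨h, ?_⟩
      simp only [rep, if_neg hw]
      rw [hh]; group
  choose hh hspec using h1
  exact ⟨⟨rep, hh, hspec, fun h w => by simp only [rep, hcl], by simp only [rep, if_true]⟩⟩

section graph
variable {α ε : Type} [DecidableEq ε] {χ : FreeGroup α →* FreeGroup ε}

theorem RepData.hh_mul (D : RepData χ) (hχ : Function.Injective χ) (h : FreeGroup α)
    (w : FreeGroup ε) : D.hh (χ h * w) = h * D.hh w := by
  apply hχ
  have h1 := D.spec (χ h * w)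
  rw [D.rep_mul] at h1
  have h2 := D.spec w
  rw [_root_.map_mul]
  apply mul_right_cancel (b := D.rep w)
  rw [← h1, mul_assoc, ← h2]

theorem RepData.hh_one (D : RepData χ) (hχ : Function.Injective χ) : D.hh 1 = 1 := by
  have h1 := D.spec 1
  rw [D.rep_one, mul_one] at h1
  exact hχ (by rw [← h1, _root_.map_one])

theorem RepData.rep_rep (D : RepData χ) (w : FreeGroup ε) : D.rep (D.rep w) = D.rep w := by
  have h := D.rep_mul (D.hh w) (D.rep w)
  rw [← D.spec w] at h
  exact h.symm

theorem RepData.rep_mul_right (D : RepData χ) (w x : FreeGroup ε) :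
    D.rep (D.rep w * x) = D.rep (w * x) := by
  have h := D.rep_mul (D.hh w) (D.rep w * x)
  rw [← mul_assoc, ← D.spec w] at h
  exact h.symm

/-- the finite part of the tree -/
def RepData.Y (D : RepData χ) (N : ℕ) (r : FreeGroup ε) : Prop :=
  ∃ b : FreeGroup ε, b.norm ≤ N ∧ D.rep b = D.rep r

/-- vertices -/
def RepData.V (D : RepData χ) (N : ℕ) : Type := {r : FreeGroup ε // ∃ w, D.Y N w ∧ D.rep w = r}

/-- the vertex of an element of the tree -/
def RepData.vt (D : RepData χ) {N : ℕ} (w : FreeGroup ε) (h : D.Y N w) : D.V N :=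
  ⟨D.rep w, w, h, rfl⟩

theorem RepData.V_rep (D : RepData χ) {N : ℕ} (x : D.V N) : D.rep x.1 = x.1 := by
  obtain ⟨w, _, hw⟩ := x.2
  rw [← hw, D.rep_rep]

theorem RepData.V_Y (D : RepData χ) {N : ℕ} (x : D.V N) : D.Y N x.1 := by
  obtain ⟨w, ⟨b, h1, h2⟩, hw⟩ := x.2
  exact ⟨b, h1, by rw [h2, ← hw, D.rep_rep]⟩

theorem RepData.vt_V (D : RepData χ) {N : ℕ} (x : D.V N) : D.vt x.1 (D.V_Y x) = x :=
  Subtype.ext (D.V_rep x)

instance (D : RepData χ) (N : ℕ) [Finite ε] : Finite (D.V N) := by
  have := finite_ball (ε := ε) N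
  refine Finite.of_surjective (fun b : {w : FreeGroup ε // w.norm ≤ N} =>
    (⟨D.rep b.1, b.1, ⟨b.1, b.2, rfl⟩, rfl⟩ : D.V N)) ?_
  rintro ⟨r, w, ⟨b, h1, h2⟩, h3⟩
  exact ⟨⟨b, h1⟩, Subtype.ext (h2.trans h3)⟩

/-- edges -/
def RepData.E (D : RepData χ) (N : ℕ) : Type := {x : D.V N × ε // D.Y N (x.1.1 * of x.2)}

instance (D : RepData χ) (N : ℕ) [Finite ε] : Finite (D.E N) := by
  unfold RepData.E
  infer_instance

variable (D : RepData χ) {N : ℕ}

/-- source -/
def RepData.s (e : D.E N) : D.V N := e.1.1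

/-- target -/
def RepData.t (e : D.E N) : D.V N := D.vt (e.1.1.1 * of e.1.2) e.2

/-- label -/
def RepData.lab (e : D.E N) : ε := e.1.2

/-- the value in the subgroup -/
def RepData.ρ (e : D.E N) : FreeGroup α := D.hh (e.1.1.1 * of e.1.2)

theorem RepData.Y_rep (w x : FreeGroup ε) : D.Y N (D.rep w * x) ↔ D.Y N (w * x) := by
  unfold RepData.Y
  rw [D.rep_mul_right]

/-- the edge of the tree -/
def RepData.ed (w : FreeGroup ε) (j : ε) (h : D.Y N w) (h' : D.Y N (w * of j)) : D.E N :=
  ⟨(D.vt w h, j), (D.Y_rep w (of j)).2 h'⟩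

theorem RepData.s_ed (w : FreeGroup ε) (j : ε) (h : D.Y N w) (h' : D.Y N (w * of j)) :
    D.s (D.ed w j h h') = D.vt w h := rfl

theorem RepData.t_ed (w : FreeGroup ε) (j : ε) (h : D.Y N w) (h' : D.Y N (w * of j)) :
    D.t (D.ed w j h h') = D.vt (w * of j) h' :=
  Subtype.ext (D.rep_mul_right w (of j))

theorem RepData.ρ_ed (hχ : Function.Injective χ) (w : FreeGroup ε) (j : ε) (h : D.Y N w)
    (h' : D.Y N (w * of j)) : D.hh (w * of j) = D.hh w * D.ρ (D.ed w j h h') := by
  show _ = D.hh w * D.hh (D.rep w * of j)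
  rw [← D.hh_mul hχ, ← mul_assoc, ← D.spec w]

theorem RepData.Y_one : D.Y N 1 := ⟨1, by simp, rfl⟩

theorem RepData.Y_mul (h : FreeGroup α) (b : FreeGroup ε) (hb : b.norm ≤ N) :
    D.Y N (χ h * b) := ⟨b, hb, (D.rep_mul _ _).symm⟩

/-- induction over the tree -/
theorem RepData.Y_induction (hN : ∀ a, (χ (of a)).norm ≤ N) (Q : FreeGroup ε → Prop) (h1 : Q 1)
    (hQ : ∀ w j, D.Y N w → D.Y N (w * of j) → (Q w ↔ Q (w * of j))) :
    ∀ w, D.Y N w → Q w := by
  have step1 : ∀ h : FreeGroup α, Q (χ h) → ∀ (k : ℕ) (b : FreeGroup ε), b.norm ≤ k → b.norm ≤ N →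
      Q (χ h * b) := by
    intro h hh k
    induction k with
    | zero =>
      intro b hb _
      have : b = 1 := norm_eq_zero.1 (Nat.le_zero.1 hb)
      subst this
      simpa using hh
    | succ k ih =>
      intro b hb hbN
      by_cases hb1 : b = 1
      · subst hb1
        simpa using hh
      · obtain ⟨b', hlt, j, hj⟩ := exists_parent b hb1
        have h3 := ih b' (by omega) (by omega)
        rcases hj with hj | hj
        · subst hj
          rw [← mul_assoc]
          refine (hQ (χ h * b') j (D.Y_mul h b' (by omega)) ?_).1 h3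
          rw [mul_assoc]
          exact D.Y_mul h _ hbN
        · subst hj
          refine (hQ (χ h * b) j (D.Y_mul h b hbN) ?_).2 ?_
          · rw [mul_assoc]
            exact D.Y_mul h _ (by omega)
          · rw [mul_assoc]
            exact h3
  have step2 : ∀ h : FreeGroup α, ∀ h0 : FreeGroup α, Q (χ h0) → Q (χ (h0 * h)) := by
    intro h
    induction h using FreeGroup.induction_on with
    | C1 => intro h0 h3; simpa using h3
    | of a =>
      intro h0 h3
      show Q (χ (h0 * of a))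
      rw [_root_.map_mul]
      exact step1 h0 h3 _ _ le_rfl (hN a)
    | inv_of a _ =>
      intro h0 h3
      show Q (χ (h0 * (of a)⁻¹))
      rw [_root_.map_mul]
      refine step1 h0 h3 _ _ le_rfl ?_
      rw [_root_.map_inv, norm_inv_eq]
      exact hN a
    | mul x y hx hy =>
      intro h0 h3
      rw [← mul_assoc]
      exact hy _ (hx _ h3)
  intro w hw
  obtain ⟨b, hb, hrep⟩ := hw
  have h3 : w = χ (D.hh w * (D.hh b)⁻¹) * b := by
    calc w = χ (D.hh w) * D.rep w := D.spec w
      _ = χ (D.hh w) * (χ (D.hh b))⁻¹ * (χ (D.hh b) * D.rep b) := by rw [hrep]; group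
      _ = χ (D.hh w) * (χ (D.hh b))⁻¹ * b := by rw [← D.spec b]
      _ = χ (D.hh w * (D.hh b)⁻¹) * b := by rw [_root_.map_mul, _root_.map_inv]
  rw [h3]
  refine step1 _ ?_ _ _ le_rfl hb
  have := step2 (D.hh w * (D.hh b)⁻¹) 1 (by rw [_root_.map_one]; exact h1)
  rwa [one_mul] at this

theorem RepData.Y_mul_iff (h : FreeGroup α) (w : FreeGroup ε) : D.Y N (χ h * w) ↔ D.Y N w := by
  unfold RepData.Y
  rw [D.rep_mul]

theorem RepData.ed_V (e : D.E N) (h : D.Y N e.1.1.1) (h' : D.Y N (e.1.1.1 * of e.1.2)) :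
    D.ed e.1.1.1 e.1.2 h h' = e :=
  Subtype.ext (Prod.ext (Subtype.ext (D.V_rep e.1.1)) rfl)

theorem RepData.hh_V (hχ : Function.Injective χ) (x : D.V N) : D.hh x.1 = 1 := by
  have h1 := D.spec x.1
  rw [D.V_rep x] at h1
  have h2 : χ (D.hh x.1) = 1 := by
    apply mul_right_cancel (b := x.1)
    rw [← h1, one_mul]
  exact hχ (by rw [h2, _root_.map_one])

/-- the universal property -/
theorem RepData.univ (hχ : Function.Injective χ) (hN : ∀ a, (χ (of a)).norm ≤ N)
    (M : Type) [Group M] (μ : D.E N → M) :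
    ∃! x : (FreeGroup α →* M) × (D.V N → M), x.2 (D.vt 1 D.Y_one) = 1 ∧
      ∀ e, μ e = (x.2 (D.s e))⁻¹ * x.1 (D.ρ e) * x.2 (D.t e) := by
  classical
  let m : FreeGroup ε → ε → M := fun w j =>
    if h : D.Y N w ∧ D.Y N (w * of j) then μ (D.ed w j h.1 h.2) else 1
  have hmY : ∀ w j (h : D.Y N w) (h' : D.Y N (w * of j)), m w j = μ (D.ed w j h h') := by
    intro w j h h'
    simp only [m]
    rw [dif_pos ⟨h, h'⟩]
  have hminv : ∀ h w j, m (χ h * w) j = m w j := by
    intro h w j
    by_cases h1 : D.Y N w ∧ D.Y N (w * of j)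
    · have h2 : D.Y N (χ h * w) := (D.Y_mul_iff h w).2 h1.1
      have h3 : D.Y N (χ h * w * of j) := by
        rw [mul_assoc]; exact (D.Y_mul_iff h _).2 h1.2
      rw [hmY _ _ h2 h3, hmY _ _ h1.1 h1.2]
      congr 1
      exact Subtype.ext (Prod.ext (Subtype.ext (D.rep_mul h w)) rfl)
    · have h2 : ¬ (D.Y N (χ h * w) ∧ D.Y N (χ h * w * of j)) := by
        rw [mul_assoc, D.Y_mul_iff, D.Y_mul_iff]; exact h1
      simp only [m]
      rw [dif_neg h1, dif_neg h2]
  obtain ⟨p, hp1, hp2⟩ := exists_pot m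
  have hpmul : ∀ h w, p (χ h * w) = p (χ h) * p w := by
    intro h w
    have := pot_unique m (fun w => (p (χ h))⁻¹ * p (χ h * w)) p (by simp [hp1])
      (fun w j => by
        show (p (χ h))⁻¹ * p (χ h * (w * of j)) = (p (χ h))⁻¹ * p (χ h * w) * m w j
        rw [← mul_assoc (χ h), hp2, hminv, mul_assoc])
      hp2
    rw [← congrFun this w]
    simp
  let θ : FreeGroup α →* M := MonoidHom.mk' (fun h => p (χ h)) (fun a b => by
    show p (χ (a * b)) = _
    rw [_root_.map_mul, hpmul])
  have hθ : ∀ h, θ h = p (χ h) := fun h => rfl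
  refine ⟨(θ, fun x => p x.1), ⟨?_, ?_⟩, ?_⟩
  · show p (D.rep 1) = 1
    rw [D.rep_one, hp1]
  · intro e
    show μ e = (p e.1.1.1)⁻¹ * p (χ (D.ρ e)) * p (D.rep (e.1.1.1 * of e.1.2))
    have h1 : p (e.1.1.1 * of e.1.2) = p e.1.1.1 * μ e := by
      rw [hp2, hmY _ _ (D.V_Y e.1.1) e.2, D.ed_V]
    have h2 : p (e.1.1.1 * of e.1.2) = p (χ (D.ρ e)) * p (D.rep (e.1.1.1 * of e.1.2)) := by
      conv_lhs => rw [D.spec (e.1.1.1 * of e.1.2)]
      rw [hpmul]
      rfl
    rw [mul_assoc, ← h2, h1]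
    group
  · rintro ⟨g, r⟩ ⟨hr1, hr2⟩
    dsimp only at hr1 hr2
    have key : ∀ w, D.Y N w → ∀ hw : D.Y N w, g (D.hh w) * r (D.vt w hw) = p w := by
      refine D.Y_induction hN _ ?_ ?_
      · intro hw
        rw [D.hh_one hχ, _root_.map_one, one_mul, hp1]
        exact hr1
      · intro w j h h'
        have e1 := hr2 (D.ed w j h h')
        rw [D.s_ed, D.t_ed] at e1
        have e2 : p (w * of j) = p w * μ (D.ed w j h h') := by rw [hp2, hmY _ _ h h']
        have e3 : g (D.hh (w * of j)) * r (D.vt (w * of j) h') =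
            g (D.hh w) * r (D.vt w h) * μ (D.ed w j h h') := by
          rw [e1, D.ρ_ed hχ w j h h', _root_.map_mul]
          group
        constructor
        · intro hQ hw
          rw [e3, e2, hQ h]
        · intro hQ hw
          have e4 := hQ h'
          rw [e3, e2] at e4
          exact mul_right_cancel e4
    refine Prod.ext ?_ ?_
    · refine MonoidHom.ext fun h => ?_
      show g h = p (χ h)
      have hY : D.Y N (χ h) := by
        have := (D.Y_mul_iff (N := N) h 1).2 D.Y_one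
        rwa [mul_one] at this
      have h1 := key (χ h) hY hY
      have h2 : D.hh (χ h) = h := by
        have := D.hh_mul hχ h 1
        rwa [mul_one, D.hh_one hχ, mul_one] at this
      have h3 : D.vt (χ h) hY = D.vt 1 D.Y_one := Subtype.ext (by
        show D.rep (χ h) = D.rep 1
        have := D.rep_mul h 1
        rwa [mul_one] at this)
      rw [h2, h3, hr1, mul_one] at h1
      exact h1
    · funext x
      have h1 := key x.1 (D.V_Y x) (D.V_Y x)
      rw [D.hh_V hχ x, _root_.map_one, one_mul, D.vt_V] at h1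
      exact h1

/-- connectedness -/
theorem RepData.conn (hN : ∀ a, (χ (of a)).norm ≤ N) (f : D.V N → Bool)
    (hf : ∀ e, f (D.s e) = f (D.t e)) : ∀ u w, f u = f w := by
  have key : ∀ w, D.Y N w → ∀ hw : D.Y N w, f (D.vt w hw) = f (D.vt 1 D.Y_one) := by
    refine D.Y_induction hN _ (fun _ => rfl) ?_
    intro w j h h'
    have e1 := hf (D.ed w j h h')
    rw [D.s_ed, D.t_ed] at e1
    exact ⟨fun hQ _ => by rw [← e1]; exact hQ h, fun hQ _ => by rw [e1]; exact hQ h'⟩
  intro u w
  have h1 := key u.1 (D.V_Y u) (D.V_Y u)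
  have h2 := key w.1 (D.V_Y w) (D.V_Y w)
  rw [D.vt_V] at h1 h2
  rw [h1, h2]

theorem exists_path (L : List (ε × Bool)) :
    ∀ (w : FreeGroup ε), w.norm + L.length ≤ N → ∃ (P : List (D.E N × Bool)) (h1 : D.Y N w)
      (h2 : D.Y N (w * mk L)), IsPath D.s D.t (D.vt w h1) P (D.vt (w * mk L) h2) ∧
      readW D.lab P = L := by
  induction L with
  | nil =>
    intro w hw
    have h1 : D.Y N w := ⟨w, by simpa using hw, rfl⟩
    have h2 : D.Y N (w * mk []) := by rw [← one_eq_mk, mul_one]; exact h1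
    refine ⟨[], h1, h2, ?_, rfl⟩
    show D.vt w h1 = D.vt (w * mk []) h2
    exact Subtype.ext (by show D.rep w = D.rep (w * mk []); rw [← one_eq_mk, mul_one])
  | cons g L ih =>
    intro w hw
    have h0 : (g :: L).length = L.length + 1 := by simp
    have hn : (w * mk [g]).norm ≤ w.norm + 1 := by
      refine (FreeGroup.norm_mul_le _ _).trans ?_
      have : (mk [g] : FreeGroup ε).norm ≤ 1 := norm_mk_le
      omega
    obtain ⟨P, h1, h2, hP, hr⟩ := ih (w * mk [g]) (by omega)
    have e1 : (mk (g :: L) : FreeGroup ε) = mk [g] * mk L := by rw [mul_mk]; rfl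
    have hYw : D.Y N w := ⟨w, by omega, rfl⟩
    have h2' : D.Y N (w * mk (g :: L)) := by rw [e1, ← mul_assoc]; exact h2
    have hend : D.vt (w * mk [g] * mk L) h2 = D.vt (w * mk (g :: L)) h2' :=
      Subtype.ext (by show D.rep _ = D.rep _; rw [e1, ← mul_assoc])
    rw [hend] at hP
    rcases g with ⟨j, b⟩
    cases b
    · have e2 : (mk [(j, false)] : FreeGroup ε) = (of j)⁻¹ := by rw [of, inv_mk]; rfl
      have h3 : D.Y N (w * mk [(j, false)] * of j) := by
        rw [e2, inv_mul_cancel_right]; exact hYw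
      refine ⟨(D.ed (w * mk [(j, false)]) j h1 h3, false) :: P, hYw, h2', ⟨?_, ?_⟩, ?_⟩
      · show D.vt w hYw = D.t (D.ed (w * mk [(j, false)]) j h1 h3)
        rw [D.t_ed]
        exact Subtype.ext (by
          show D.rep _ = D.rep _
          rw [e2, inv_mul_cancel_right])
      · exact hP
      · show (j, false) :: readW D.lab P = _
        rw [hr]
    · refine ⟨(D.ed w j hYw h1, true) :: P, hYw, h2', ⟨rfl, ?_⟩, ?_⟩
      · show IsPath D.s D.t (D.t (D.ed w j hYw h1)) P _
        rw [D.t_ed]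
        exact hP
      · show (j, true) :: readW D.lab P = _
        rw [hr]

end graph

section vals
variable {V E : Type}

/-- the product of the values along a path -/
def valP {M : Type} [Group M] (f : E → M) (P : List (E × Bool)) : M :=
  (P.map fun x => if x.2 then f x.1 else (f x.1)⁻¹).prod

theorem valP_congr {M : Type} [Group M] (f f' : E → M) (P : List (E × Bool))
    (h : ∀ x ∈ P, f x.1 = f' x.1) : valP f P = valP f' P := by
  unfold valP
  congr 1
  refine List.map_congr_left fun x hx => ?_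
  rw [h x hx]

theorem valP_of {ε : Type} (l : E → ε) (P : List (E × Bool)) :
    valP (fun e => (of (l e) : FreeGroup ε)) P = mk (readW l P) := by
  induction P with
  | nil => exact one_eq_mk
  | cons x P ih =>
    obtain ⟨e, b⟩ := x
    have e1 : (mk (readW l ((e, b) :: P)) : FreeGroup ε) = mk [(l e, b)] * mk (readW l P) := by
      rw [mul_mk]; rfl
    rw [e1, ← ih]
    have e3 : valP (fun e => (of (l e) : FreeGroup ε)) ((e, b) :: P) =
      (if b then of (l e) else (of (l e))⁻¹) * valP (fun e => (of (l e) : FreeGroup ε)) P := by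
      unfold valP
      rw [List.map_cons, List.prod_cons]
    rw [e3]
    congr 1
    cases b
    · show (of (l e))⁻¹ = _
      rw [of, inv_mk]; rfl
    · rfl

theorem valP_path {H M : Type} [Group H] [Group M] (s t : E → V) (ρ : E → H) (m : E → M)
    (g : H →* M) (r : V → M) (h : ∀ e, m e = (r (s e))⁻¹ * g (ρ e) * r (t e)) :
    ∀ (P : List (E × Bool)) (u w : V), IsPath s t u P w →
      valP m P = (r u)⁻¹ * g (valP ρ P) * r w
  | [], u, w, hp => by
    have hp : u = w := hp
    subst hp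
    show (1 : M) = (r u)⁻¹ * g 1 * r u
    rw [_root_.map_one]
    simp
  | (e, b) :: P, u, w, hp => by
    have ih := valP_path s t ρ m g r h P _ w hp.2
    have e1 : valP m ((e, b) :: P) = (if b then m e else (m e)⁻¹) * valP m P := by
      unfold valP
      rw [List.map_cons, List.prod_cons]
    have e2 : valP ρ ((e, b) :: P) = (if b then ρ e else (ρ e)⁻¹) * valP ρ P := by
      unfold valP
      rw [List.map_cons, List.prod_cons]
    rw [e1, e2, ih, hp.1, _root_.map_mul, h e]
    cases b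
    · simp only [Bool.false_eq_true, if_false, _root_.map_inv]
      group
    · simp only [if_true]
      group

end vals

theorem const_on_path {V E α : Type} (s t : E → V) (f : V → α) :
    ∀ (P : List (E × Bool)) (u w : V), IsPath s t u P w → (∀ x ∈ P, f (s x.1) = f (t x.1)) →
      ∀ x ∈ P, f (s x.1) = f u ∧ f (t x.1) = f u
  | [], u, w, _, _ => by simp
  | (e, b) :: P, u, w, hp, hf => by
    intro x hx
    have h1 := hf (e, b) List.mem_cons_self
    have h2 : f (s e) = f u := by
      rw [hp.1]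
      cases b
      · exact h1
      · rfl
    have h3 : f (t e) = f u := by rw [← h1]; exact h2
    rcases List.mem_cons.1 hx with rfl | hx
    · exact ⟨h2, h3⟩
    · have h4 := const_on_path s t f P _ w hp.2 (fun y hy => hf y (List.mem_cons_of_mem _ hy)) x hx
      have h5 : f (if b then t e else s e) = f u := by
        cases b
        · exact h2
        · exact h3
      rw [h5] at h4
      exact h4

end FreeFac

open FreeFac in
theorem freeFactor (h8 : NonBridgeStatement) (_hs : SurjStatement) : FreeFactorStatement := by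
  classical
  intro α β γ δ _ _ _ _ ψ v hv hvK g
  let K : Subgroup (FreeGroup (γ ⊕ δ)) := (FreeGroup.map (Sum.inl : γ → γ ⊕ δ)).range
  let χ : FreeGroup α →* FreeGroup (γ ⊕ δ) := ψ.toMonoidHom.comp (FreeGroup.map Sum.inl)
  have hχ : Function.Injective χ :=
    ψ.injective.comp (FreeGroup.map_injective Sum.inl_injective)
  show χ g ∈ K
  have hvK' : χ v ∈ K := hvK
  obtain ⟨v', hv'⟩ := hvK'
  let L : List ((γ ⊕ δ) × Bool) := (χ v).toWord
  have hL : ∀ x ∈ L, ∃ c : γ, x.1 = Sum.inl c := by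
    intro x hx
    have h1 : χ v = mk (v'.toWord.map fun y => (Sum.inl y.1, y.2)) := by
      rw [← hv', ← FreeGroup.map.mk, mk_toWord]
    have h2 : L.Sublist (v'.toWord.map fun y => (Sum.inl y.1, y.2)) := by
      show ((χ v).toWord).Sublist _
      rw [h1, toWord_mk]
      exact (reduce.red).sublist
    obtain ⟨y, _, rfl⟩ := List.mem_map.1 (h2.subset hx)
    exact ⟨y.1, rfl⟩
  have hmL : (mk L : FreeGroup (γ ⊕ δ)) = χ v := mk_toWord
  let N : ℕ := ∑ a, (χ (of a)).norm + (χ v).norm
  have hN : ∀ a, (χ (of a)).norm ≤ N := fun a =>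
    (Finset.single_le_sum (f := fun a => (χ (of a)).norm) (fun _ _ => Nat.zero_le _)
      (Finset.mem_univ a)).trans (Nat.le_add_right _ _)
  obtain ⟨D⟩ := exists_repData χ
  obtain ⟨P, h1, h2, hP, hread⟩ := exists_path D (N := N) L 1 (by
    show FreeGroup.norm 1 + (χ v).norm ≤ N
    rw [FreeGroup.norm_one]; omega)
  let o : D.V N := D.vt 1 D.Y_one
  have hend : D.vt (1 * mk L) h2 = o := Subtype.ext (by
    show D.rep _ = D.rep _
    rw [one_mul, hmL]
    have := D.rep_mul v 1
    rwa [mul_one] at this)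
  rw [hend] at hP
  have hP : IsPath D.s D.t o P o := hP
  have hlabP : ∀ x ∈ P, ∃ c : γ, D.lab x.1 = Sum.inl c := by
    intro x hx
    refine hL (D.lab x.1, x.2) ?_
    rw [← hread]
    exact List.mem_map.2 ⟨x, hx, rfl⟩
  -- the tautological solution
  have htaut : ∀ e : D.E N, (of (D.lab e) : FreeGroup (γ ⊕ δ)) =
      ((D.s e).1)⁻¹ * χ (D.ρ e) * (D.t e).1 := by
    intro e
    have := D.spec (e.1.1.1 * of e.1.2)
    show of e.1.2 = (e.1.1.1)⁻¹ * χ (D.hh (e.1.1.1 * of e.1.2)) * D.rep (e.1.1.1 * of e.1.2)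
    rw [mul_assoc, ← this]
    group
  have ho1 : o.1 = 1 := D.rep_one
  have hρP : valP D.ρ P = v := by
    have h3 := valP_path D.s D.t D.ρ (fun e => (of (D.lab e) : FreeGroup (γ ⊕ δ))) χ
      (fun x => x.1) htaut P o o hP
    rw [valP_of, hread, hmL, ho1] at h3
    exact hχ (by rw [h3]; group)
  have hval : ∀ (M : Type) [Group M] (m : D.E N → M) (x : (FreeGroup α →* M) × (D.V N → M)),
      x.2 o = 1 → (∀ e, m e = (x.2 (D.s e))⁻¹ * x.1 (D.ρ e) * x.2 (D.t e)) →
      x.1 v = valP m P := by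
    intro M _ m x hx1 hx2
    have h3 := valP_path D.s D.t D.ρ m x.1 x.2 hx2 P o o hP
    rw [h3, hx1, hρP]
    simp
  have : Fintype (D.V N) := Fintype.ofFinite _
  have : Fintype (D.E N) := Fintype.ofFinite _
  -- unused edges are bridges
  have hbridge : ∀ e₀ : D.E N, (∀ b, (e₀, b) ∉ P) → ∃ c : D.V N → Bool,
      (∀ e, e ≠ e₀ → c (D.s e) = c (D.t e)) ∧ c (D.s e₀) ≠ c (D.t e₀) := by
    intro e₀ he₀
    by_contra hcon
    push Not at hcon
    refine h8 (D.V N) (D.E N) (FreeGroup α) (fun _ _ => False) (fun e u w => D.s e = u ∧ D.t e = w)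
      D.ρ o (fun e => ⟨_, _, rfl, rfl⟩) ?_ ?_ e₀ v ?_ ?_ hv
    · rintro e u w u' w' ⟨rfl, rfl⟩ ⟨rfl, rfl⟩
      exact ⟨Relation.EqvGen.refl _, Relation.EqvGen.refl _⟩
    · intro M _ m
      obtain ⟨x, ⟨hx1, hx2⟩, hx3⟩ := D.univ hχ hN M m
      refine ⟨x, ⟨hx1, fun _ _ h => h.elim, ?_⟩, ?_⟩
      · rintro e u w ⟨rfl, rfl⟩
        exact hx2 e
      · rintro y ⟨hy1, _, hy2⟩
        exact hx3 y ⟨hy1, fun e => hy2 e _ _ ⟨rfl, rfl⟩⟩
    · intro f _ hf
      refine D.conn hN f ?_
      intro e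
      by_cases he : e = e₀
      · subst he
        exact hcon f (fun e' he' => hf e' he' _ _ ⟨rfl, rfl⟩)
      · exact hf e he _ _ ⟨rfl, rfl⟩
    · intro M _ m m' x x' hx hx' hmm
      rw [hval M m x hx.1 (fun e => hx.2.2 e _ _ ⟨rfl, rfl⟩),
        hval M m' x' hx'.1 (fun e => hx'.2.2 e _ _ ⟨rfl, rfl⟩)]
      refine valP_congr _ _ _ ?_
      intro y hy
      refine hmm y.1 ?_
      rintro rfl
      exact he₀ y.2 hy
  -- the gauge which trivialises the unused edges
  have hgauge : ∀ S : Finset (D.E N), (∀ e ∈ S, ∀ b, (e, b) ∉ P) →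
      ∃ p : D.V N → FreeGroup (γ ⊕ δ), (∀ e ∈ S, (p (D.s e))⁻¹ * p (D.t e) = of (D.lab e)) ∧
        ∀ e, e ∉ S → p (D.s e) = p (D.t e) := by
    intro S
    induction S using Finset.induction_on with
    | empty => exact fun _ => ⟨fun _ => 1, by simp, by simp⟩
    | insert e₀ S he₀ ih =>
      intro hS
      obtain ⟨p, hp1, hp2⟩ := ih (fun e he => hS e (Finset.mem_insert_of_mem he))
      obtain ⟨c, hc1, hc2⟩ := hbridge e₀ (hS e₀ (Finset.mem_insert_self _ _))
      obtain ⟨p', a1, a2, a3⟩ := pot_fix p c (D.s e₀) (D.t e₀) hc2 (of (D.lab e₀))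
      refine ⟨p', ?_, ?_⟩
      · intro e he
        rcases Finset.mem_insert.1 he with rfl | he
        · exact a2
        · have hne : e ≠ e₀ := fun h => he₀ (h ▸ he)
          rw [a1 _ _ (hc1 e hne)]
          exact hp1 e he
      · intro e he
        have hne : e ≠ e₀ := fun h => he (h ▸ Finset.mem_insert_self _ _)
        exact a3 _ _ (hc1 e hne) (hp2 e (fun h => he (Finset.mem_insert_of_mem h)))
  let U : Finset (D.E N) := Finset.univ.filter fun e => ∀ b, (e, b) ∉ P
  obtain ⟨p, hp1, hp2⟩ := hgauge U (fun e he => (Finset.mem_filter.1 he).2)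
  have hused : ∀ e : D.E N, e ∉ U → ∃ b, (e, b) ∈ P := by
    intro e he
    by_contra h
    push Not at h
    exact he (Finset.mem_filter.2 ⟨Finset.mem_univ _, h⟩)
  have hpP : ∀ e : D.E N, e ∉ U → p (D.s e) = p o ∧ p (D.t e) = p o := by
    intro e he
    obtain ⟨b, hb⟩ := hused e he
    refine const_on_path D.s D.t p P o o hP ?_ (e, b) hb
    intro x hx
    refine hp2 x.1 ?_
    intro h
    exact (Finset.mem_filter.1 h).2 x.2 hx
  -- the labelling with values in `K`
  have hK : ∀ e : D.E N, e ∉ U → (of (D.lab e) : FreeGroup (γ ⊕ δ)) ∈ K := by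
    intro e he
    obtain ⟨b, hb⟩ := hused e he
    obtain ⟨c, hc⟩ := hlabP _ hb
    exact ⟨of c, by rw [FreeGroup.map.of]; exact congrArg of hc.symm⟩
  let μ : D.E N → K := fun e => if h : e ∈ U then 1 else ⟨of (D.lab e), hK e h⟩
  obtain ⟨⟨gK, rK⟩, ⟨hg1, hg2⟩, -⟩ := D.univ hχ hN K μ
  dsimp only at hg1 hg2
  obtain ⟨x0, _, hx0⟩ := D.univ hχ hN (FreeGroup (γ ⊕ δ)) (fun e => (μ e).1)
  have s1 := hx0 (K.subtype.comp gK, fun x => (rK x).1) ⟨by
      show (rK _).1 = 1
      rw [hg1]; rfl, fun e => by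
      show (μ e).1 = ((rK (D.s e)).1)⁻¹ * (gK (D.ρ e)).1 * (rK (D.t e)).1
      rw [hg2 e]; rfl⟩
  have s2 := hx0 (χ, fun x => x.1 * ((p o)⁻¹ * p x)⁻¹) ⟨by
      show o.1 * ((p o)⁻¹ * p o)⁻¹ = 1
      rw [ho1]; simp, fun e => by
      show (μ e).1 = ((D.s e).1 * ((p o)⁻¹ * p (D.s e))⁻¹)⁻¹ * χ (D.ρ e) *
        ((D.t e).1 * ((p o)⁻¹ * p (D.t e))⁻¹)
      by_cases he : e ∈ U
      · have e1 : (μ e).1 = 1 := by simp only [μ, dif_pos he]; rfl
        have e2 := hp1 e he
        rw [htaut e] at e2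
        have e3 : (D.t e).1 = (χ (D.ρ e))⁻¹ * (D.s e).1 * ((p (D.s e))⁻¹ * p (D.t e)) := by
          rw [e2]; group
        rw [e1, e3]
        group
      · have e1 : (μ e).1 = of (D.lab e) := by simp only [μ, dif_neg he]
        rw [e1, (hpP e he).1, (hpP e he).2, htaut e]
        simp⟩
  have h5 := congrArg Prod.fst (s2.trans s1.symm)
  have h6 : χ g = (gK g).1 := DFunLike.congr_fun h5 g
  rw [h6]
  exact (gK g).2

end Pool.Agent.Helper35_WH
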